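import Pool.Agent.UN.OS6
import Pool.Agent.UNY.I5

set_option autoImplicit false

open scoped Classical
open NumberField Finset

/-!
# [UN-OS7] Gaussian integers: at least 34.3 % in the order of the exact minimal discriminant
-/

namespace UN

open PI QT

theorem os7_qfin (Z : ℕ) : (QT.quarA Z).Finite := by
  refine (norm_fin Z).subset ?_
  rintro D ⟨-, -, h⟩
  have := GaussianInt.norm_nonneg D
  change D.norm.natAbs ≤ Z
  omega

theorem os7_gg {K c η : ℝ} (hK : 0 < K) (hc : 0 < c) (hη : 0 < η) :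
    ∃ Y0 : ℕ, ∀ Y : ℕ, Y0 ≤ Y → K * gg Y ≤ η * (c * ((Y : ℝ) / 32)) := by
  have h1 : Filter.Tendsto (fun x : ℝ => x ^ (-(1 / 4 : ℝ))) Filter.atTop (nhds 0) :=
    tendsto_rpow_neg_atTop (by norm_num)
  have h2 := (h1.comp tendsto_natCast_atTop_atTop)
  have hε : 0 < η * (c / 32) / K := by positivity
  have h3 := (h2.eventually (gt_mem_nhds hε)).and (Filter.eventually_ge_atTop 1)
  obtain ⟨Y0, hY0⟩ := Filter.eventually_atTop.1 h3
  refine ⟨Y0, fun Y hY => ?_⟩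
  obtain ⟨h4, h5⟩ := hY0 Y hY
  have hYp : (0 : ℝ) < Y := by exact_mod_cast h5
  simp only [Function.comp_apply] at h4
  rw [lt_div_iff₀ (by positivity)] at h4
  have h6 : gg Y = (Y : ℝ) ^ (-(1 / 4 : ℝ)) * Y := by
    unfold gg
    have h7 : (Y : ℝ) ^ (-(1 / 4 : ℝ)) * (Y : ℝ) ^ (1 : ℝ) = (Y : ℝ) ^ (-(1 / 4 : ℝ) + 1) := (Real.rpow_add hYp _ _).symm
    rw [Real.rpow_one] at h7
    rw [h7]
    norm_num
  rw [h6]
  have h8 := mul_le_mul_of_nonneg_right h4.le hYp.le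
  calc K * ((Y : ℝ) ^ (-(1 / 4 : ℝ)) * Y) = (Y : ℝ) ^ (-(1 / 4 : ℝ)) * K * Y := by ring
    _ ≤ η * (c / 32) * Y := h8
    _ = _ := by ring

/-- **[UN-OS7a]** the number of the `D` with good reduction above `2` up to `Y` and up to `Y / 16` -/
theorem os7_C0 : ∃ X0 : ℕ, ∀ Y : ℕ, X0 ≤ Y →
    ((({D : Gi | QFG D ∧ C0 D ∧ D.norm.natAbs ≤ Y}).ncard : ℕ) : ℝ) ≤
      ((({D : Gi | QFG D ∧ C0 D ∧ D.norm.natAbs ≤ Y / 16}).ncard : ℕ) : ℝ) + 501 / 1000 * ((QT.quarA (Y / 16)).ncard : ℝ) := by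
  obtain ⟨K, hK, h⟩ := i4_sA
  obtain ⟨c, hc, Z0, hZ⟩ := QT.ncard_quarA_ge
  obtain ⟨Y0, hY0⟩ := os7_gg (K := 66 * K) (c := c) (η := 1 / 1000) (by positivity) hc (by norm_num)
  refine ⟨Y0 + 16 * Z0 + 16, fun Y hY => ?_⟩
  have h1 := hY0 Y (by omega)
  have h2 := hZ (Y / 16) (by omega)
  set A : ℝ := ((QT.quarA (Y / 16)).ncard : ℝ) with hA
  have h3 : (Y : ℝ) / 32 ≤ ((Y / 16 : ℕ) : ℝ) := by
    have : (Y : ℝ) ≤ 32 * ((Y / 16 : ℕ) : ℝ) := by exact_mod_cast (by omega : Y ≤ 32 * (Y / 16))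
    linarith
  have h4 : 66 * K * gg Y ≤ 1 / 1000 * A := by
    have h5 := mul_le_mul_of_nonneg_left h3 hc.le
    linarith
  -- the lower bound for `A`
  have h5 : ∀ a : Gi, ¬ la ∣ a → 15 / 4 * ((sA a Y).card : ℝ) - 128 * (K * gg Y) ≤ A := by
    intro a ha
    have h6 : ∀ j < 4, 32 * (((sA a Y).card : ℝ) / 2 ^ (3 + j + 1) - K * gg Y) ≤ ((oA (Y / 16 / 2 ^ j)).card : ℝ) := by
      intro j hj
      rw [card_oA]
      push_cast
      have h7 : ∀ x ∈ oC, ((sA a Y).card : ℝ) / 2 ^ (3 + j + 1) - K * gg Y ≤ ((sA ⟨x.1, x.2⟩ (Y / 16 / 2 ^ j)).card : ℝ) := by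
        intro x hx
        have hxo : ¬ la ∣ (⟨x.1, x.2⟩ : Gi) := by
          unfold oC at hx
          rw [Finset.mem_filter] at hx
          rw [la_dvd_iff]
          simp only
          omega
        have h8 := i4_half hK h ha Y (3 + j) ⟨x.1, x.2⟩ hxo
        have e : Y / 16 / 2 ^ j = Y / 2 ^ (3 + j + 1) := by
          rw [Nat.div_div_eq_div_mul]
          congr 1
          rw [show 3 + j + 1 = 4 + j by ring, pow_add]
          norm_num
        rw [e]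
        exact h8
      have h9 := Finset.sum_le_sum h7
      rw [Finset.sum_const, card_oC, nsmul_eq_mul] at h9
      push_cast at h9
      exact h9
    have h10 : ((∑ j ∈ Finset.range 4, (oA (Y / 16 / 2 ^ j)).card : ℕ) : ℝ) ≤ A := by
      rw [hA]
      exact_mod_cast i5_quarA (Y / 16)
    push_cast at h10
    rw [Finset.sum_range_succ, Finset.sum_range_succ, Finset.sum_range_succ, Finset.sum_range_succ, Finset.sum_range_zero] at h10
    have k0 := h6 0 (by norm_num)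
    have k1 := h6 1 (by norm_num)
    have k2 := h6 2 (by norm_num)
    have k3 := h6 3 (by norm_num)
    norm_num at k0 k1 k2 k3 h10
    linarith
  -- the two classes
  have h5' : ∀ a : Gi, ¬ la ∣ a → ((sA a Y).card : ℝ) ≤ 1 / 4 * A + ((sA a (Y / 16)).card : ℝ) + 33 * (K * gg Y) := by
    intro a ha
    have k1 := h5 a ha
    have k2 := i4_half hK h ha Y 3 a ha
    norm_num at k2
    linarith
  have h6 : ({D : Gi | QFG D ∧ C0 D ∧ D.norm.natAbs ≤ Y}).ncard ≤ (sA ⟨1, 2⟩ Y).card + (sA ⟨1, 6⟩ Y).card := by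
    refine le_trans ?_ (Finset.card_union_le _ _)
    rw [← Set.ncard_coe_finset]
    refine Set.ncard_le_ncard ?_ (Finset.finite_toSet _)
    rintro D ⟨k1, k2, k3⟩
    rw [Finset.mem_coe, Finset.mem_union, mem_sA, mem_sA, i5_eight, i5_eight]
    rw [Zsqrtd.re_sub, Zsqrtd.im_sub, Zsqrtd.re_sub, Zsqrtd.im_sub]
    obtain ⟨k4, k5⟩ := k2
    by_cases k6 : D.im % 8 = 2
    · exact Or.inl ⟨k3, ⟨by simp only; omega, by simp only; omega⟩, k1⟩
    · exact Or.inr ⟨k3, ⟨by simp only; omega, by simp only; omega⟩, k1⟩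
  have h6' : (sA ⟨1, 2⟩ (Y / 16)).card + (sA ⟨1, 6⟩ (Y / 16)).card ≤
      ({D : Gi | QFG D ∧ C0 D ∧ D.norm.natAbs ≤ Y / 16}).ncard := by
    have hdis : Disjoint (sA ⟨1, 2⟩ (Y / 16)) (sA ⟨1, 6⟩ (Y / 16)) := by
      rw [Finset.disjoint_left]
      intro D hD1 hD2
      rw [mem_sA, i5_eight, Zsqrtd.re_sub, Zsqrtd.im_sub] at hD1 hD2
      simp only at hD1 hD2
      omega
    rw [← Finset.card_union_of_disjoint hdis, ← Set.ncard_coe_finset]
    refine Set.ncard_le_ncard ?_ ((norm_fin (Y / 16)).subset fun D h => h.2.2)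
    intro D hD
    rw [Finset.mem_coe, Finset.mem_union, mem_sA, mem_sA, i5_eight, i5_eight, Zsqrtd.re_sub, Zsqrtd.im_sub,
      Zsqrtd.re_sub, Zsqrtd.im_sub] at hD
    simp only at hD
    rcases hD with ⟨k1, k2, k3⟩ | ⟨k1, k2, k3⟩
    · exact ⟨k3, ⟨by omega, by omega⟩, k1⟩
    · exact ⟨k3, ⟨by omega, by omega⟩, k1⟩
  have h7 : ((({D : Gi | QFG D ∧ C0 D ∧ D.norm.natAbs ≤ Y}).ncard : ℕ) : ℝ) ≤
      ((sA ⟨1, 2⟩ Y).card : ℝ) + ((sA ⟨1, 6⟩ Y).card : ℝ) := by exact_mod_cast h6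
  have h7' : ((sA ⟨1, 2⟩ (Y / 16)).card : ℝ) + ((sA ⟨1, 6⟩ (Y / 16)).card : ℝ) ≤
      ((({D : Gi | QFG D ∧ C0 D ∧ D.norm.natAbs ≤ Y / 16}).ncard : ℕ) : ℝ) := by exact_mod_cast h6'
  have h8 := h5' ⟨1, 2⟩ (by rw [la_dvd_iff]; decide)
  have h9 := h5' ⟨1, 6⟩ (by rw [la_dvd_iff]; decide)
  linarith

/-- **[UN-OS7]** at least 34.3 % of all elliptic curves over `ℚ(i)` with `j`-invariant `1728`, ordered by the norm of the exact minimal
discriminant, satisfy `P`, if all the curves of the good `(s, t, S, a)` do. -/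
theorem one_sharp' {P : WeierstrassCurve KI → Prop}
    (H : ∀ (s t : ℕ) (S : Finset Gi) (a : Gi → ℕ), QT.Good s t S a →
      P (QT.W ((eG (QT.Dd s t S a) : 𝓞 KI) : KI))) :
    (∀ X : ℕ, (fam KI 1728 (fun _ => True) X).Finite) ∧ ∃ X0 : ℕ, ∀ X : ℕ, X0 ≤ X →
      343 / 1000 * ((fam KI 1728 (fun _ => True) X).ncard : ℝ) ≤ ((fam KI 1728 P X).ncard : ℝ) := by
  refine par_count (ι := {D : Gi // QFG D}) 1728 P (fun p => hI p.1) (fun p => WI p.1)
    (fun p => ∃ s t S a, QT.Good s t S a ∧ p.1 = QT.Dd s t S a) (343 / 1000) i2_up i2_low i2_inj ?_ ?_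
  · rintro p ⟨s, t, S, a, hg, hD⟩
    unfold WI
    rw [hD]
    exact H s t S a hg
  have hval : Function.Injective (Subtype.val : {D : Gi // QFG D} → Gi) := Subtype.val_injective
  have hle : ∀ D : Gi, D.norm.natAbs ^ 3 ≤ hI D := by
    intro D
    unfold hI
    refine Nat.le_mul_of_pos_left _ ?_
    split_ifs <;> norm_num
  have hfin : ∀ X : ℕ, {p : {D : Gi // QFG D} | hI p.1 ≤ X}.Finite := by
    intro X
    refine Set.Finite.of_finite_image (f := Subtype.val) ?_ hval.injOn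
    refine (norm_fin X).subset ?_
    rintro _ ⟨p, hp, rfl⟩
    change p.1.norm.natAbs ≤ X
    calc p.1.norm.natAbs ≤ p.1.norm.natAbs ^ 3 := Nat.le_self_pow (by norm_num) _
      _ ≤ hI p.1 := hle _
      _ ≤ X := hp
  refine ⟨hfin, ?_⟩
  obtain ⟨Y0, h0⟩ := os7_C0
  obtain ⟨Y1, h1⟩ := density16
  refine ⟨(Y0 + 16 * Y1) ^ 3, fun X hX => ?_⟩
  obtain ⟨Y, hY1, hY2⟩ : ∃ Y : ℕ, Y ^ 3 ≤ X ∧ X < (Y + 1) ^ 3 := by
    have hex : ∃ n : ℕ, X < (n + 1) ^ 3 := ⟨X, lt_of_lt_of_le (Nat.lt_succ_self X) (Nat.le_self_pow (by norm_num) _)⟩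
    refine ⟨Nat.find hex, ?_, Nat.find_spec hex⟩
    rcases Nat.eq_zero_or_pos (Nat.find hex) with h | h
    · rw [h]
      simp
    · have h2 := Nat.find_min hex (m := Nat.find hex - 1) (by omega)
      rw [Nat.sub_add_cancel h] at h2
      omega
  have hYl : Y0 + 16 * Y1 ≤ Y := by
    by_contra hcon
    have h2 : (Y + 1) ^ 3 ≤ (Y0 + 16 * Y1) ^ 3 := Nat.pow_le_pow_left (by omega) 3
    omega
  have hcube : ∀ n : ℕ, n ^ 3 ≤ X → n ≤ Y := by
    intro n hn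
    by_contra hcon
    have h2 : (Y + 1) ^ 3 ≤ n ^ 3 := Nat.pow_le_pow_left (by omega) 3
    omega
  have hNfin : ({D : Gi | QFG D ∧ ¬ C0 D ∧ D.norm.natAbs ≤ Y / 16}).Finite := (norm_fin (Y / 16)).subset fun D h => h.2.2
  have hCfin : ∀ Z : ℕ, ({D : Gi | QFG D ∧ C0 D ∧ D.norm.natAbs ≤ Z}).Finite := fun Z => (norm_fin Z).subset fun D h => h.2.2
  have hT : ({p : {D : Gi // QFG D} | hI p.1 ≤ X}).ncard ≤
      ({D : Gi | QFG D ∧ C0 D ∧ D.norm.natAbs ≤ Y}).ncard + ({D : Gi | QFG D ∧ ¬ C0 D ∧ D.norm.natAbs ≤ Y / 16}).ncard := by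
    rw [← Set.ncard_image_of_injective _ hval]
    refine le_trans (Set.ncard_le_ncard ?_ ((hCfin Y).union hNfin)) (Set.ncard_union_le _ _)
    rintro _ ⟨⟨D, hD⟩, hp, rfl⟩
    change hI D ≤ X at hp
    change D ∈ _
    by_cases hC0 : C0 D
    · left
      refine ⟨hD, hC0, hcube _ ?_⟩
      unfold hI at hp
      rwa [if_pos hC0, one_mul] at hp
    · right
      unfold hI at hp
      rw [if_neg hC0] at hp
      have h2 : 16 * D.norm.natAbs ≤ Y := hcube _ (by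
        rw [mul_pow]
        exact hp)
      exact ⟨hD, hC0, by omega⟩
  have hA : ({D : Gi | QFG D ∧ C0 D ∧ D.norm.natAbs ≤ Y / 16}).ncard + ({D : Gi | QFG D ∧ ¬ C0 D ∧ D.norm.natAbs ≤ Y / 16}).ncard ≤
      (QT.quarA (Y / 16)).ncard := by
    rw [← Set.ncard_union_eq ?_ (hCfin _) hNfin]
    · refine Set.ncard_le_ncard ?_ (os7_qfin _)
      rintro D (⟨⟨k0, k1⟩, -, k3⟩ | ⟨⟨k0, k1⟩, -, k3⟩)
      all_goals
        refine ⟨k0, k1, ?_⟩
        have := GaussianInt.norm_nonneg D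
        omega
    · rw [Set.disjoint_left]
      rintro D ⟨-, k1, -⟩ ⟨-, k2, -⟩
      exact k2 k1
  have hG : (quarN (Y / 16)).ncard + (quarC (16 * (Y / 16))).ncard ≤
      ({p : {D : Gi // QFG D} | hI p.1 ≤ X ∧ ∃ s t S a, QT.Good s t S a ∧ p.1 = QT.Dd s t S a}).ncard := by
    rw [← Set.ncard_image_of_injective _ hval, ← Set.ncard_union_eq ?_ ((os7_qfin _).subset fun D h => h.1)
      ((os7_qfin _).subset fun D h => h.1)]
    · refine Set.ncard_le_ncard ?_ (((hfin X).subset fun p hp => hp.1).image _)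
      rintro D (⟨⟨hD0, hD1, hD2⟩, hC, s, t, S, a, hg, hD3⟩ | ⟨⟨hD0, hD1, hD2⟩, hC, s, t, S, a, hg, hD3⟩)
      · refine ⟨⟨D, hD0, hD1⟩, ⟨?_, s, t, S, a, hg, hD3⟩, rfl⟩
        change hI D ≤ X
        have h2 : D.norm.natAbs ≤ Y / 16 := by
          have := GaussianInt.norm_nonneg D
          omega
        have h3 : 16 * D.norm.natAbs ≤ Y := by omega
        calc hI D = 4096 * D.norm.natAbs ^ 3 := by
              unfold hI
              rw [if_neg hC]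
          _ = (16 * D.norm.natAbs) ^ 3 := by rw [mul_pow]; norm_num
          _ ≤ Y ^ 3 := Nat.pow_le_pow_left h3 3
          _ ≤ X := hY1
      · refine ⟨⟨D, hD0, hD1⟩, ⟨?_, s, t, S, a, hg, hD3⟩, rfl⟩
        change hI D ≤ X
        have h3 : D.norm.natAbs ≤ Y := by
          have := GaussianInt.norm_nonneg D
          omega
        calc hI D = D.norm.natAbs ^ 3 := by
              unfold hI
              rw [if_pos hC, one_mul]
          _ ≤ Y ^ 3 := Nat.pow_le_pow_left h3 3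
          _ ≤ X := hY1
    · rw [Set.disjoint_left]
      rintro D ⟨-, k1, -⟩ ⟨-, k2, -⟩
      exact k1 k2
  have h2 := h0 Y (by omega)
  have h3 := h1 (Y / 16) (by omega)
  have h4 : (({p : {D : Gi // QFG D} | hI p.1 ≤ X}).ncard : ℝ) ≤
      (({D : Gi | QFG D ∧ C0 D ∧ D.norm.natAbs ≤ Y}).ncard : ℝ) +
        (({D : Gi | QFG D ∧ ¬ C0 D ∧ D.norm.natAbs ≤ Y / 16}).ncard : ℝ) := by exact_mod_cast hT
  have h4' : (({D : Gi | QFG D ∧ C0 D ∧ D.norm.natAbs ≤ Y / 16}).ncard : ℝ) +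
        (({D : Gi | QFG D ∧ ¬ C0 D ∧ D.norm.natAbs ≤ Y / 16}).ncard : ℝ) ≤ ((QT.quarA (Y / 16)).ncard : ℝ) := by exact_mod_cast hA
  have h5 : ((quarN (Y / 16)).ncard : ℝ) + ((quarC (16 * (Y / 16))).ncard : ℝ) ≤
      (({p : {D : Gi // QFG D} | hI p.1 ≤ X ∧ ∃ s t S a, QT.Good s t S a ∧ p.1 = QT.Dd s t S a}).ncard : ℝ) := by
    exact_mod_cast hG
  have h6 : (0 : ℝ) ≤ ((QT.quarA (Y / 16)).ncard : ℝ) := Nat.cast_nonneg _
  linarith

end UN
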