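import Pool.Agent.QT.P6
import Pool.Agent.PP.SQ
import Pool.Agent.PI.DZ4

set_option autoImplicit false

open scoped Classical
open Finset

/-!
# [UN-OS2] sums of periodic functions over squarefree sets: invariance under multiplication
-/

namespace PP
namespace Ar

variable {P G : Type} [Fintype G] (D : Ar P G)

/-- the identity behind the sieve, for arbitrary functions -/
theorem sq_identity' (g : Multiset P → ℝ) (X : ℕ) :
    ∑ T ∈ D.sb X, g T.val =
      ∑ S ∈ D.sb (Nat.sqrt X), (-1 : ℝ) ^ S.card * ∑ M ∈ D.mb (X / nS D.N S ^ 2), g (2 • S.val + M) := by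
  have e1 : ∑ S ∈ D.sb (Nat.sqrt X), (-1 : ℝ) ^ S.card * ∑ M ∈ D.mb (X / nS D.N S ^ 2), g (2 • S.val + M) =
      ∑ x ∈ (D.sb (Nat.sqrt X)).sigma (fun S => D.mb (X / nS D.N S ^ 2)),
        (-1 : ℝ) ^ x.1.card * g (2 • x.1.val + x.2) := by
    rw [Finset.sum_sigma]
    refine Finset.sum_congr rfl fun S _ => ?_
    rw [Finset.mul_sum]
  have e2 : ∑ x ∈ (D.sb (Nat.sqrt X)).sigma (fun S => D.mb (X / nS D.N S ^ 2)),
        (-1 : ℝ) ^ x.1.card * g (2 • x.1.val + x.2) =
      ∑ y ∈ (D.mb X).sigma (fun L => (dbl L).powerset),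
        (-1 : ℝ) ^ y.2.card * g y.1 := by
    refine Finset.sum_bij' (fun x _ => ⟨2 • x.1.val + x.2, x.1⟩) (fun y _ => ⟨y.2, y.1 - 2 • y.2.val⟩)
      ?_ ?_ ?_ ?_ ?_
    · rintro ⟨S, M⟩ hx
      rw [Finset.mem_sigma] at hx ⊢
      obtain ⟨h1, h2⟩ := hx
      dsimp only at h1 h2 ⊢
      rw [mem_mb] at h2 ⊢
      rw [Finset.mem_powerset, subset_dbl_iff]
      refine ⟨?_, Multiset.le_add_right _ _⟩
      rw [nM_add, nM_two_val]
      calc nS D.N S ^ 2 * nM D.N M ≤ nS D.N S ^ 2 * (X / nS D.N S ^ 2) := Nat.mul_le_mul le_rfl h2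
        _ ≤ X := Nat.mul_div_le _ _
    · rintro ⟨L, S⟩ hy
      rw [Finset.mem_sigma] at hy ⊢
      obtain ⟨h1, h2⟩ := hy
      dsimp only at h1 h2 ⊢
      rw [mem_mb] at h1 ⊢
      rw [Finset.mem_powerset, subset_dbl_iff] at h2
      have h3 : nM D.N L = nS D.N S ^ 2 * nM D.N (L - 2 • S.val) := by
        rw [← nM_two_val, ← nM_add, add_tsub_cancel_of_le h2]
      have h4 : 0 < nS D.N S := D.nS_pos S
      have h5 : 0 < nM D.N (L - 2 • S.val) := D.nM_pos _
      rw [mem_sb]
      constructor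
      · rw [Nat.le_sqrt']
        calc nS D.N S ^ 2 = nS D.N S ^ 2 * 1 := (mul_one _).symm
          _ ≤ nS D.N S ^ 2 * nM D.N (L - 2 • S.val) := Nat.mul_le_mul le_rfl h5
          _ ≤ X := by rw [← h3]; exact h1
      · rw [Nat.le_div_iff_mul_le (pow_pos h4 2), mul_comm, ← h3]
        exact h1
    · rintro ⟨S, M⟩ _
      dsimp only
      rw [add_tsub_cancel_left]
    · rintro ⟨L, S⟩ hy
      rw [Finset.mem_sigma] at hy
      have h2 := hy.2
      rw [Finset.mem_powerset, subset_dbl_iff] at h2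
      dsimp only at h2 ⊢
      rw [add_tsub_cancel_of_le h2]
    · rintro ⟨S, M⟩ _
      rfl
  have e3 : ∑ y ∈ (D.mb X).sigma (fun L => (dbl L).powerset),
        (-1 : ℝ) ^ y.2.card * g y.1 = ∑ L ∈ (D.mb X).filter (fun L => L.Nodup), g L := by
    rw [Finset.sum_sigma, Finset.sum_filter]
    refine Finset.sum_congr rfl fun L _ => ?_
    dsimp only
    rw [← Finset.sum_mul, sum_dbl]
    by_cases hL : L.Nodup
    · rw [if_pos hL, if_pos hL, one_mul]
    · rw [if_neg hL, if_neg hL, zero_mul]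
  rw [e1, e2, e3]
  refine Finset.sum_bij' (fun T _ => T.val) (fun L _ => L.toFinset) ?_ ?_ ?_ ?_ ?_
  · intro T hT
    rw [Finset.mem_filter, mem_mb, nM_val]
    exact ⟨D.mem_sb.1 hT, T.nodup⟩
  · intro L hL
    rw [Finset.mem_filter, mem_mb] at hL
    rw [mem_sb, ← nM_val, Multiset.toFinset_val, Multiset.dedup_eq_self.2 hL.2]
    exact hL.1
  · intro T _
    exact Finset.val_toFinset T
  · intro L hL
    rw [Finset.mem_filter] at hL
    rw [Multiset.toFinset_val, Multiset.dedup_eq_self.2 hL.2]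
  · intro T _
    rfl

end Ar
end PP

namespace UN

open PI QT

/-- the product of a multiset of primary primes outside of `R` -/
noncomputable def prR (R : Finset OPi) (M : Multiset (PR R)) : Gi := prM (M.map Subtype.val)

theorem prR_add (R : Finset OPi) (M M' : Multiset (PR R)) : prR R (M + M') = prR R M * prR R M' := by
  unfold prR prM
  rw [Multiset.map_add, Multiset.map_add, Multiset.prod_add]

theorem prR_two (R : Finset OPi) (S M : Multiset (PR R)) : prR R (2 • S + M) = prR R S ^ 2 * prR R M := by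
  rw [two_nsmul, prR_add, prR_add, sq]

theorem prim_prR (R : Finset OPi) (M : Multiset (PR R)) : Prim (prR R M) := prim_prM _

theorem norm_prR (R : Finset OPi) (M : Multiset (PR R)) : (prR R M).norm.natAbs = PP.nM (nR R) M := by
  unfold prR
  rw [norm_pr]
  exact (gar.res_nM R M).symm

/-- primary and prime to `R` -/
def PrimR (R : Finset OPi) (a : Gi) : Prop := Prim a ∧ ∀ ρ ∈ R, ¬ ρ.1 ∣ a

theorem primR_prR (R : Finset OPi) (M : Multiset (PR R)) : PrimR R (prR R M) := by
  refine ⟨prim_prR R M, fun ρ hρ h => ?_⟩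
  unfold prR at h
  rw [dvd_pr, Multiset.mem_map] at h
  obtain ⟨v, -, rfl⟩ := h
  exact v.2 hρ

/-- [UN-OS2b] sums over multisets as sums over primary elements prime to `R` -/
theorem sum_mbR (R : Finset OPi) (x : ℕ) (f : Gi → ℝ) :
    ∑ M ∈ (arQT R).mb x, f (prR R M) = ∑ a ∈ (norm_fin x).toFinset.filter (PrimR R), f a := by
  refine Finset.sum_bij (fun M _ => prR R M) ?_ ?_ ?_ ?_
  · intro M hM
    rw [Finset.mem_filter, Set.Finite.mem_toFinset]
    refine ⟨?_, primR_prR R M⟩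
    change (prR R M).norm.natAbs ≤ x
    rw [norm_prR]
    exact (arQT R).mem_mb.1 hM
  · intro M _ M' _ h
    exact Multiset.map_injective Subtype.val_injective (pr_inj h)
  · intro a ha
    rw [Finset.mem_filter, Set.Finite.mem_toFinset] at ha
    obtain ⟨M, hM⟩ := pr_surj ha.2.1
    have hR : ∀ v ∈ M, v ∉ R := by
      intro v hv hvR
      exact ha.2.2 v hvR (by rw [← hM]; exact (dvd_pr v M).2 hv)
    let M' : Multiset (PR R) := M.pmap (fun v h => ⟨v, h⟩) hR
    have hM' : M'.map Subtype.val = M := by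
      show (M.pmap (fun v h => (⟨v, h⟩ : PR R)) hR).map Subtype.val = M
      rw [Multiset.map_pmap, Multiset.pmap_eq_map, Multiset.map_id']
    have hM2 : prR R M' = a := by
      unfold prR
      rw [hM', hM]
    refine ⟨M', ?_, hM2⟩
    refine (arQT R).mem_mb.2 ?_
    change PP.nM (nR R) M' ≤ x
    rw [← norm_prR, hM2]
    exact ha.1
  · intro M _
    rfl

/-- [UN-OS2c] sums of `H(a) - H(b a)` over discs -/
theorem sum_periodic' : ∃ C : ℝ, 0 < C ∧ ∀ (m : Gi) (H : Gi → ℝ) (b b' : Gi), m ≠ 0 → (∀ a b, m ∣ a - b → H a = H b) →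
    (∀ a, |H a| ≤ 1) → m ∣ b * b' - 1 → ∀ x : ℕ,
    |∑ a ∈ (norm_fin x).toFinset, (H a - H (b * a))| ≤ 2 * C * (√(x * (m.norm.natAbs : ℝ)) + (m.norm.natAbs : ℝ)) := by
  obtain ⟨C, hC, h⟩ := count_class
  refine ⟨C, hC, fun m H b b' hm hH hH1 hbb x => ?_⟩
  obtain ⟨R, hR1, hR2⟩ := exists_residues m hm
  choose r hr hr' using hR2
  simp only at hr hr'
  have hrm : ∀ a, r a ∈ R := fun a => (hr a).1
  have hrd : ∀ a, m ∣ a - r a := fun a => (hr a).2
  have hru : ∀ a c, c ∈ R → m ∣ a - c → c = r a := fun a c h1 h2 => hr' a c ⟨h1, h2⟩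
  have hN0 : (0 : ℝ) < (m.norm.natAbs : ℝ) := by
    have h1 : m.norm.natAbs ≠ 0 := by
      rw [Int.natAbs_ne_zero]
      exact (GaussianInt.norm_pos.2 hm).ne'
    exact_mod_cast Nat.pos_of_ne_zero h1
  set N : ℝ := (m.norm.natAbs : ℝ) with hN
  obtain ⟨f, hf0⟩ : ∃ f : Gi → ℝ, f = fun a => H a - H (b * a) := ⟨_, rfl⟩
  have hf : ∀ a c, m ∣ a - c → f a = f c := by
    intro a c hac
    rw [hf0]
    show H a - H (b * a) = H c - H (b * c)
    rw [hH a c hac, hH (b * a) (b * c) (by rw [← mul_sub]; exact hac.mul_left b)]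
  have hf1 : ∀ a, |f a| ≤ 2 := by
    intro a
    rw [hf0]
    show |H a - H (b * a)| ≤ 2
    have h1 := abs_le.1 (hH1 a)
    have h2 := abs_le.1 (hH1 (b * a))
    rw [abs_le]
    constructor <;> linarith
  -- the sum over the classes
  have hsum0 : ∑ c ∈ R, f c = 0 := by
    have h1 : ∑ c ∈ R, H c = ∑ c ∈ R, H (b * c) := by
      symm
      refine Finset.sum_bij' (fun c _ => r (b * c)) (fun c _ => r (b' * c)) (fun c _ => hrm _)
        (fun c _ => hrm _) ?_ ?_ ?_
      · intro c hc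
        symm
        apply hru _ _ hc
        have e : b' * r (b * c) - c = (b * b' - 1) * c - b' * (b * c - r (b * c)) := by ring
        rw [e]
        exact dvd_sub (hbb.mul_right c) ((hrd _).mul_left b')
      · intro c hc
        symm
        apply hru _ _ hc
        have e : b * r (b' * c) - c = (b * b' - 1) * c - b * (b' * c - r (b' * c)) := by ring
        rw [e]
        exact dvd_sub (hbb.mul_right c) ((hrd _).mul_left b)
      · intro c hc
        exact hH _ _ (hrd _)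
    rw [hf0, Finset.sum_sub_distrib, h1, sub_self]
  have hsplit : ∑ a ∈ (norm_fin x).toFinset, f a =
      ∑ c ∈ R, f c * (((norm_fin x).toFinset.filter fun a => m ∣ a - c).card : ℝ) := by
    rw [← Finset.sum_fiberwise_of_maps_to (g := r) (t := R) (fun a _ => hrm a)]
    refine Finset.sum_congr rfl fun c hc => ?_
    have h1 : (norm_fin x).toFinset.filter (fun a => r a = c) =
        (norm_fin x).toFinset.filter fun a => m ∣ a - c := by
      apply Finset.filter_congr
      intro a _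
      constructor
      · rintro rfl
        exact hrd a
      · intro h
        exact (hru a c hc h).symm
    rw [h1, mul_comm, ← nsmul_eq_mul, ← Finset.sum_const]
    refine Finset.sum_congr rfl fun a ha => ?_
    exact hf _ _ (Finset.mem_filter.1 ha).2
  have hsplit2 : ∑ a ∈ (norm_fin x).toFinset, f a =
      ∑ c ∈ R, f c * ((((norm_fin x).toFinset.filter fun a => m ∣ a - c).card : ℝ) -
        Real.pi * x / N) := by
    simp only [mul_sub]
    rw [Finset.sum_sub_distrib, ← Finset.sum_mul, hsum0, zero_mul, sub_zero, hsplit]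
  have e0 : ∑ a ∈ (norm_fin x).toFinset, (H a - H (b * a)) = ∑ a ∈ (norm_fin x).toFinset, f a := by
    rw [hf0]
  rw [e0, hsplit2]
  calc |∑ c ∈ R, f c * ((((norm_fin x).toFinset.filter fun a => m ∣ a - c).card : ℝ) -
        Real.pi * x / N)|
      ≤ ∑ c ∈ R, |f c * ((((norm_fin x).toFinset.filter fun a => m ∣ a - c).card : ℝ) -
        Real.pi * x / N)| := Finset.abs_sum_le_sum_abs _ _
    _ ≤ ∑ c ∈ R, 2 * C * (√(x / N) + 1) := by
        refine Finset.sum_le_sum fun c _ => ?_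
        rw [abs_mul]
        calc |f c| * |(((norm_fin x).toFinset.filter fun a => m ∣ a - c).card : ℝ) -
              Real.pi * x / N| ≤ 2 * (C * (√(x / N) + 1)) :=
              mul_le_mul (hf1 c) (h m c hm x) (abs_nonneg _) (by norm_num)
          _ = 2 * C * (√(x / N) + 1) := by ring
    _ = (R.card : ℝ) * (2 * C * (√(x / N) + 1)) := by rw [Finset.sum_const, nsmul_eq_mul]
    _ ≤ N * (2 * C * (√(x / N) + 1)) := by
        have : (R.card : ℝ) ≤ N := by
          rw [hN]
          exact_mod_cast hR1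
        gcongr
    _ = 2 * C * (√(x * N) + N) := by
        have e : √((x : ℝ) * N) = N * √(x / N) := by
          have e1 : (x : ℝ) * N = N ^ 2 * (x / N) := by
            field_simp
          rw [e1, Real.sqrt_mul (by positivity), Real.sqrt_sq hN0.le]
        rw [e]
        ring

/-- the modulus -/
noncomputable def mR (R : Finset OPi) : Gi := 8 * ∏ ρ ∈ R, ρ.1

theorem mR_ne (R : Finset OPi) : mR R ≠ 0 :=
  mul_ne_zero (by decide) (Finset.prod_ne_zero_iff.2 fun ρ _ => ρ.2.1.ne_zero)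

theorem prim_congr {a b : Gi} (h : 8 ∣ a - b) : Prim a ↔ Prim b := by
  have h1 : (⟨2, 2⟩ : Gi) ∣ a - b := by
    refine dvd_trans ⟨⟨2, -2⟩, by decide⟩ h
  unfold Prim
  have e : a - 1 = (a - b) + (b - 1) := by ring
  rw [e]
  exact ⟨fun h2 => (dvd_add_right h1).1 h2, fun h2 => dvd_add h1 h2⟩

theorem prim_mul_iff {b : Gi} (hb : Prim b) (a : Gi) : Prim (b * a) ↔ Prim a := by
  unfold Prim at hb ⊢
  have e : b * a - 1 = (b - 1) * a + (a - 1) := by ring
  rw [e]
  have h1 := hb.mul_right a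
  exact ⟨fun h2 => (dvd_add_right h1).1 h2, fun h2 => dvd_add h1 h2⟩

theorem primR_congr {R : Finset OPi} {a b : Gi} (h : mR R ∣ a - b) : PrimR R a ↔ PrimR R b := by
  have h8 : (8 : Gi) ∣ a - b := (dvd_mul_right _ _).trans h
  have hρ : ∀ ρ ∈ R, (ρ.1 ∣ a ↔ ρ.1 ∣ b) := by
    intro ρ hρ
    have h1 : ρ.1 ∣ a - b := ((Finset.dvd_prod_of_mem (fun ρ : OPi => ρ.1) hρ).mul_left 8).trans h
    have e : a = (a - b) + b := by ring
    constructor
    · intro h2
      rw [e] at h2
      exact (dvd_add_right h1).1 h2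
    · intro h2
      rw [e]
      exact dvd_add h1 h2
  unfold PrimR
  rw [prim_congr h8]
  exact and_congr_right fun _ => forall₂_congr fun ρ hρ' => not_congr (hρ ρ hρ')

theorem primR_mul_iff {R : Finset OPi} {b : Gi} (hb : PrimR R b) (a : Gi) : PrimR R (b * a) ↔ PrimR R a := by
  unfold PrimR
  rw [prim_mul_iff hb.1]
  refine and_congr_right fun _ => forall₂_congr fun ρ hρ => not_congr ?_
  rw [ρ.2.1.dvd_mul]
  exact ⟨fun h => h.resolve_left (hb.2 ρ hρ), Or.inr⟩

theorem coprime_mR {R : Finset OPi} {b : Gi} (hb : PrimR R b) : IsCoprime (mR R) b := by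
  unfold mR
  refine IsCoprime.mul_left ?_ (IsCoprime.prod_left fun ρ hρ => ?_)
  · have h1 : IsCoprime la b := (Irreducible.coprime_iff_not_dvd la_prime.irreducible).2 hb.1.not_la
    have h2 : IsCoprime (la ^ 6) b := h1.pow_left
    exact h2.of_isCoprime_of_dvd_left ⟨-ii, by decide⟩
  · exact (Irreducible.coprime_iff_not_dvd ρ.2.1.irreducible).2 (hb.2 ρ hρ)

/-- [UN-OS2] **Invariance of the mean value** of a periodic function over the squarefree sets, under multiplication by `b`. -/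
theorem mean_inv (R : Finset OPi) (H : Gi → ℝ) (hH : ∀ a b, mR R ∣ a - b → H a = H b) (hH1 : ∀ a, |H a| ≤ 1)
    {b : Gi} (hb : PrimR R b) : ∀ ε : ℝ, 0 < ε → ∃ X0 : ℕ, ∀ X : ℕ, X0 ≤ X →
    |∑ T ∈ (arQT R).sb X, (H (prR R T.val) - H (b * prR R T.val))| ≤ ε * X := by
  intro ε hε
  obtain ⟨C, hC, hper⟩ := sum_periodic'
  obtain ⟨b', hbb⟩ : ∃ b' : Gi, mR R ∣ b * b' - 1 := by
    obtain ⟨u, v, huv⟩ := coprime_mR hb
    refine ⟨v, -u, ?_⟩
    linear_combination huv
  set N : ℝ := ((mR R).norm.natAbs : ℝ) with hN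
  have hN0 : 0 ≤ N := Nat.cast_nonneg _
  have hC' : 0 ≤ 2 * C * (√N + N) := by positivity
  obtain ⟨X0, hX0⟩ := (arQT R).sq_error (2 * C * (√N + N)) hC' ε hε
  refine ⟨X0, fun X hX => ?_⟩
  have e0 := (arQT R).sq_identity' (fun M => H (prR R M) - H (b * prR R M)) X
  beta_reduce at e0
  rw [e0]
  refine (Finset.abs_sum_le_sum_abs _ _).trans (le_trans (Finset.sum_le_sum fun S _ => ?_) (hX0 X hX))
  rw [abs_mul, abs_pow, abs_neg, abs_one, one_pow, one_mul]
  set x : ℕ := X / PP.nS (arQT R).N S ^ 2 with hx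
  set s : Gi := prR R S.val with hs
  -- the inner sum
  obtain ⟨K, hK⟩ : ∃ K : Gi → ℝ, K = fun a => if PrimR R a then H (s ^ 2 * a) else 0 := ⟨_, rfl⟩
  have hK1 : ∀ a c, mR R ∣ a - c → K a = K c := by
    intro a c hac
    have h1 := primR_congr hac
    have h2 : H (s ^ 2 * a) = H (s ^ 2 * c) := hH _ _ (by rw [← mul_sub]; exact hac.mul_left _)
    rw [hK]
    show (if PrimR R a then H (s ^ 2 * a) else 0) = if PrimR R c then H (s ^ 2 * c) else 0
    by_cases h3 : PrimR R c
    · rw [if_pos h3, if_pos (h1.2 h3), h2]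
    · rw [if_neg h3, if_neg fun h4 => h3 (h1.1 h4)]
  have hK2 : ∀ a, |K a| ≤ 1 := by
    intro a
    rw [hK]
    show |if PrimR R a then H (s ^ 2 * a) else 0| ≤ 1
    split_ifs
    · exact hH1 _
    · rw [abs_zero]
      exact zero_le_one
  have e1 : ∑ M ∈ (arQT R).mb x, (H (prR R (2 • S.val + M)) - H (b * prR R (2 • S.val + M))) =
      ∑ a ∈ (norm_fin x).toFinset, (K a - K (b * a)) := by
    have h1 : ∑ M ∈ (arQT R).mb x, (H (prR R (2 • S.val + M)) - H (b * prR R (2 • S.val + M))) =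
        ∑ M ∈ (arQT R).mb x, (fun a => H (s ^ 2 * a) - H (b * (s ^ 2 * a))) (prR R M) := by
      refine Finset.sum_congr rfl fun M _ => ?_
      show H (prR R (2 • S.val + M)) - H (b * prR R (2 • S.val + M)) = H (s ^ 2 * prR R M) - H (b * (s ^ 2 * prR R M))
      rw [prR_two]
    rw [h1, sum_mbR R x (fun a => H (s ^ 2 * a) - H (b * (s ^ 2 * a))), Finset.sum_filter]
    refine Finset.sum_congr rfl fun a _ => ?_
    rw [hK]
    show (if PrimR R a then H (s ^ 2 * a) - H (b * (s ^ 2 * a)) else 0) =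
      (if PrimR R a then H (s ^ 2 * a) else 0) - if PrimR R (b * a) then H (s ^ 2 * (b * a)) else 0
    by_cases h2 : PrimR R a
    · rw [if_pos h2, if_pos h2, if_pos ((primR_mul_iff hb a).2 h2), mul_left_comm b (s ^ 2) a]
    · rw [if_neg h2, if_neg h2, if_neg fun h3 => h2 ((primR_mul_iff hb a).1 h3), sub_zero]
  rw [e1]
  have hdiv := PP.Ar.sqrt_div_le X (PP.nS (arQT R).N S) ((arQT R).nS_pos S)
  rw [← hx] at hdiv
  rcases Nat.eq_zero_or_pos x with hx0 | hx0
  · have h1 : ∑ a ∈ (norm_fin x).toFinset, (K a - K (b * a)) = 0 := by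
      refine Finset.sum_eq_zero fun a ha => ?_
      rw [Set.Finite.mem_toFinset] at ha
      change a.norm.natAbs ≤ x at ha
      have h2 : a = 0 := by
        have h3 : a.norm.natAbs = 0 := by omega
        by_contra hne
        have h4 := GaussianInt.norm_pos.2 hne
        omega
      have h3 : ¬ PrimR R (0 : Gi) := fun h4 => h4.1.not_la (dvd_zero _)
      rw [h2, mul_zero, sub_self]
    rw [h1, abs_zero]
    positivity
  · have h1 := hper (mR R) K b b' (mR_ne R) hK1 hK2 hbb x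
    rw [← hN] at h1
    refine h1.trans ?_
    have hx1 : (1 : ℝ) ≤ x := by exact_mod_cast hx0
    have h2 : √((x : ℝ) * N) = √(x : ℝ) * √N := Real.sqrt_mul (Nat.cast_nonneg x) N
    have h3 : (1 : ℝ) ≤ √(x : ℝ) := Real.one_le_sqrt.2 hx1
    have h4 : √((x : ℝ) * N) + N ≤ √(x : ℝ) * (√N + N) := by
      rw [h2, mul_add]
      have := mul_le_mul_of_nonneg_right h3 hN0
      linarith
    calc 2 * C * (√((x : ℝ) * N) + N) ≤ 2 * C * (√(x : ℝ) * (√N + N)) :=
          mul_le_mul_of_nonneg_left h4 (by positivity)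
      _ = 2 * C * (√N + N) * √(x : ℝ) := by ring
      _ ≤ 2 * C * (√N + N) * (√(X : ℝ) * (1 / PP.nS (arQT R).N S)) := mul_le_mul_of_nonneg_left hdiv hC'

end UN
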