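import Pool.Agent.UN.OS2

set_option autoImplicit false

open scoped Classical
open Finset

/-!
# [UN-OS3] the squarefree sets are equidistributed in the classes given by the norm modulo `16` and the symbols at `A`
-/

namespace UN

open PI QT

theorem os3_zmod (a : ZMod 2) : a = 0 ∨ a = 1 := by
  revert a
  decide

theorem os3_cast (a : Gi) : ((a.norm.natAbs : ℕ) : ℤ) = a.re ^ 2 + a.im ^ 2 := by
  rw [← qr_norm, Int.natAbs_of_nonneg (GaussianInt.norm_nonneg a)]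

/-- the norm modulo `16` -/
theorem norm16_congr {a b : Gi} (h : 8 ∣ a - b) : a.norm.natAbs % 16 = b.norm.natAbs % 16 := by
  obtain ⟨k, l, h1, h2⟩ := dz4_eight h
  have e1 := os3_cast a
  have e2 := os3_cast b
  have e3 : (16 : ℤ) ∣ (a.norm.natAbs : ℤ) - (b.norm.natAbs : ℤ) := by
    rw [e1, e2, h1, h2]
    exact ⟨b.re * k + 4 * k ^ 2 + b.im * l + 4 * l ^ 2, by ring⟩
  omega

theorem norm4_prim {a : Gi} (h : Prim a) : a.norm.natAbs % 4 = 1 := by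
  obtain ⟨h1, h2⟩ := (qr_prim_iff a).1 h
  have e1 := os3_cast a
  obtain ⟨j, hj⟩ : ∃ j : ℤ, a.im = 2 * j := ⟨a.im / 2, by omega⟩
  obtain ⟨k, hk⟩ : ∃ k : ℤ, a.re = 2 * k + 1 := ⟨a.re / 2, by omega⟩
  have e3 : (4 : ℤ) ∣ (a.norm.natAbs : ℤ) - 1 := by
    rw [e1, hj, hk]
    exact ⟨k ^ 2 + k + j ^ 2, by ring⟩
  omega

theorem norm_mul_abs (a b : Gi) : (a * b).norm.natAbs = a.norm.natAbs * b.norm.natAbs := by
  rw [Zsqrtd.norm_mul, Int.natAbs_mul]

/-- the four classes of norms -/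
def K4 : Finset ℕ := {1, 5, 9, 13}

theorem mem_K4 {k : ℕ} : k ∈ K4 ↔ k % 4 = 1 ∧ k < 16 := by
  unfold K4
  simp only [Finset.mem_insert, Finset.mem_singleton]
  omega

theorem card_K4 : K4.card = 4 := by decide

/-- primary elements of given class of the norm -/
theorem exists_norm16 {j : ℕ} (hj : j ∈ K4) : ∃ y : Gi, Prim y ∧ y.norm.natAbs % 16 = j := by
  unfold K4 at hj
  simp only [Finset.mem_insert, Finset.mem_singleton] at hj
  rcases hj with rfl | rfl | rfl | rfl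
  · exact ⟨1, Prim.one, by decide⟩
  · exact ⟨⟨-1, 2⟩, (qr_prim_iff _).2 (by decide), by decide⟩
  · exact ⟨⟨5, 0⟩, (qr_prim_iff _).2 (by decide), by decide⟩
  · exact ⟨⟨3, 2⟩, (qr_prim_iff _).2 (by decide), by decide⟩

/-- [UN-OS3a] an element with given class of the norm and given symbols -/
theorem exists_b {R : Finset OPi} {j : ℕ} (hj : j ∈ K4) (τ : OPi → ZMod 2) :
    ∃ b : Gi, PrimR R b ∧ b.norm.natAbs % 16 = j ∧ ∀ ρ ∈ R, sy b ρ.1 = τ ρ := by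
  obtain ⟨y, hy, hyj⟩ := exists_norm16 hj
  have hx : ∀ ρ : OPi, ∃ x : Gi, ¬ ρ.1 ∣ x ∧ sy x ρ.1 = τ ρ := by
    intro ρ
    rcases os3_zmod (τ ρ) with h | h
    · exact ⟨1, ρ.2.1.not_dvd_one, by rw [sy_one, h]⟩
    · obtain ⟨x, hx⟩ := exists_nonres ρ
      refine ⟨x, fun h1 => ?_, by rw [hx, h]⟩
      have h2 : sy x ρ.1 = sy 0 ρ.1 := sy_congr (by rw [sub_zero]; exact h1)
      rw [sy_zero, hx] at h2
      exact one_ne_zero h2
  choose x hx1 hx2 using hx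
  obtain ⟨b, hb1, hb2⟩ := crt R x y
  refine ⟨b, ⟨(prim_congr hb1).2 hy, fun ρ hρ h => ?_⟩, ?_, fun ρ hρ => ?_⟩
  · refine hx1 ρ ?_
    have e : x ρ = b - (b - x ρ) := by ring
    rw [e]
    exact dvd_sub h (hb2 ρ hρ)
  · rw [norm16_congr hb1, hyj]
  · rw [sy_congr (hb2 ρ hρ), hx2]

/-- the cell: the class of `w N T` modulo `16` and the symbols at `A` -/
def Cell (A R : Finset OPi) (w k : ℕ) (τ : {x // x ∈ A} → ZMod 2) (T : Finset (PR R)) : Prop :=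
  (w * PP.nS (nR R) T) % 16 = k ∧ ∀ ρ : {x // x ∈ A}, ∑ v ∈ T, sy v.1.1 ρ.1.1 = τ ρ

/-- the indicator function of the cell -/
noncomputable def indC (A : Finset OPi) (w k : ℕ) (τ : {x // x ∈ A} → ZMod 2) (a : Gi) : ℝ :=
  if (w * a.norm.natAbs) % 16 = k ∧ ∀ ρ : {x // x ∈ A}, sy a ρ.1.1 = τ ρ then 1 else 0

theorem sy_prR {R : Finset OPi} {ρ : OPi} (hρ : ρ ∈ R) (T : Finset (PR R)) :
    sy (prR R T.val) ρ.1 = ∑ v ∈ T, sy v.1.1 ρ.1 := by
  have e : prR R T.val = ∏ v ∈ T, v.1.1 := by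
    unfold prR prM
    rw [Multiset.map_map]
    rfl
  rw [e]
  refine sy_prod T (fun v => v.1.1) ρ.2.1 ρ.2.2 fun v _ h => ?_
  exact v.2 (((dz3_dvd ρ v.1).1 h) ▸ hρ)

theorem indC_prR {A R : Finset OPi} (hA : A ⊆ R) (w k : ℕ) (τ : {x // x ∈ A} → ZMod 2) (T : Finset (PR R)) :
    indC A w k τ (prR R T.val) = if Cell A R w k τ T then 1 else 0 := by
  unfold indC Cell
  have e0 : (prR R T.val).norm.natAbs = PP.nS (nR R) T := norm_prR R T.val
  rw [e0]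
  have h : (∀ ρ : {x // x ∈ A}, sy (prR R T.val) ρ.1.1 = τ ρ) ↔ ∀ ρ : {x // x ∈ A}, ∑ v ∈ T, sy v.1.1 ρ.1.1 = τ ρ :=
    forall_congr' fun ρ => by rw [sy_prR (hA ρ.2)]
  by_cases h2 : (w * PP.nS (nR R) T) % 16 = k ∧ ∀ ρ : {x // x ∈ A}, ∑ v ∈ T, sy v.1.1 ρ.1.1 = τ ρ
  · rw [if_pos h2, if_pos ⟨h2.1, h.2 h2.2⟩]
  · rw [if_neg h2, if_neg fun h3 => h2 ⟨h3.1, h.1 h3.2⟩]

theorem card_cell {A R : Finset OPi} (hA : A ⊆ R) (w k : ℕ) (τ : {x // x ∈ A} → ZMod 2) (X : ℕ) :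
    ((((arQT R).sb X).filter (Cell A R w k τ)).card : ℝ) = ∑ T ∈ (arQT R).sb X, indC A w k τ (prR R T.val) := by
  rw [Finset.card_filter]
  push_cast
  exact Finset.sum_congr rfl fun T _ => (indC_prR hA w k τ T).symm

theorem indC_congr {A R : Finset OPi} (hA : A ⊆ R) (w k : ℕ) (τ : {x // x ∈ A} → ZMod 2) {a b : Gi} (h : mR R ∣ a - b) :
    indC A w k τ a = indC A w k τ b := by
  have h8 : (8 : Gi) ∣ a - b := (dvd_mul_right _ _).trans h
  have h1 : (w * a.norm.natAbs) % 16 = (w * b.norm.natAbs) % 16 := by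
    rw [Nat.mul_mod, norm16_congr h8, ← Nat.mul_mod]
  have h2 : ∀ ρ : {x // x ∈ A}, sy a ρ.1.1 = sy b ρ.1.1 := fun ρ =>
    sy_congr (((Finset.dvd_prod_of_mem (fun ρ : OPi => ρ.1) (hA ρ.2)).mul_left 8).trans h)
  unfold indC
  rw [h1]
  simp only [h2]

theorem abs_indC (A : Finset OPi) (w k : ℕ) (τ : {x // x ∈ A} → ZMod 2) (a : Gi) : |indC A w k τ a| ≤ 1 := by
  unfold indC
  split_ifs
  · rw [abs_one]
  · rw [abs_zero]
    exact zero_le_one

theorem os3_j {k k' : ℕ} (hk : k ∈ K4) (hk' : k' ∈ K4) : ∃ j ∈ K4, (k * j) % 16 = k' := by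
  have h : ∀ k ∈ K4, ∀ k' ∈ K4, ∃ j ∈ K4, (k * j) % 16 = k' := by decide
  exact h k hk k' hk'

theorem os3_cancel {x k k' j : ℕ} (hk : k ∈ K4) (hj : j ∈ K4) (h : (k * j) % 16 = k') :
    (x * j) % 16 = k' ↔ x % 16 = k := by
  rw [mem_K4] at hk
  have hj' : j = 1 ∨ j = 5 ∨ j = 9 ∨ j = 13 := by
    unfold K4 at hj
    simpa using hj
  rcases hj' with rfl | rfl | rfl | rfl <;> omega

/-- [UN-OS3b] any two cells have asymptotically the same number of elements -/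
theorem cell_cell {A R : Finset OPi} (hA : A ⊆ R) (w : ℕ) {k k' : ℕ} (hk : k ∈ K4) (hk' : k' ∈ K4)
    (τ τ' : {x // x ∈ A} → ZMod 2) : ∀ ε : ℝ, 0 < ε → ∃ X0 : ℕ, ∀ X : ℕ, X0 ≤ X →
    |((((arQT R).sb X).filter (Cell A R w k' τ')).card : ℝ) - ((((arQT R).sb X).filter (Cell A R w k τ)).card : ℝ)| ≤ ε * X := by
  intro ε hε
  obtain ⟨j, hj, hkj⟩ := os3_j hk hk'
  obtain ⟨b, hb1, hb2, hb3⟩ := exists_b (R := R) hj (fun ρ => if h : ρ ∈ A then τ' ⟨ρ, h⟩ + τ ⟨ρ, h⟩ else 0)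
  obtain ⟨X0, hX0⟩ := mean_inv R (indC A w k' τ') (fun a b h => indC_congr hA w k' τ' h) (abs_indC A w k' τ') hb1 ε hε
  refine ⟨X0, fun X hX => ?_⟩
  have h1 := hX0 X hX
  rw [card_cell hA, card_cell hA, ← Finset.sum_sub_distrib]
  have e : ∀ T ∈ (arQT R).sb X, indC A w k' τ' (prR R T.val) - indC A w k' τ' (b * prR R T.val) =
      indC A w k' τ' (prR R T.val) - indC A w k τ (prR R T.val) := by
    intro T _
    congr 1
    have hn : (w * (b * prR R T.val).norm.natAbs) % 16 = k' ↔ (w * (prR R T.val).norm.natAbs) % 16 = k := by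
      rw [norm_mul_abs, mul_left_comm, mul_comm b.norm.natAbs, Nat.mul_mod, hb2, Nat.mul_mod, Nat.mod_mod]
      rw [← Nat.mul_mod]
      have h2 := os3_cancel (x := w * (prR R T.val).norm.natAbs) hk hj hkj
      have h3 : j % 16 = j := Nat.mod_eq_of_lt (mem_K4.1 hj).2
      exact h2
    have hs : ∀ ρ : {x // x ∈ A}, (sy (b * prR R T.val) ρ.1.1 = τ' ρ ↔ sy (prR R T.val) ρ.1.1 = τ ρ) := by
      intro ρ
      have h2 : sy (b * prR R T.val) ρ.1.1 = sy b ρ.1.1 + sy (prR R T.val) ρ.1.1 :=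
        sy_mul ρ.1.2.1 ρ.1.2.2 (hb1.2 _ (hA ρ.2)) ((primR_prR R T.val).2 _ (hA ρ.2))
      rw [h2, hb3 _ (hA ρ.2), dif_pos ρ.2]
      generalize τ' ρ = x
      generalize τ ρ = y
      generalize sy (prR R T.val) ρ.1.1 = z
      revert x y z
      decide
    unfold indC
    exact if_congr (and_congr hn (forall_congr' hs)) rfl rfl
  rw [Finset.sum_congr rfl e] at h1
  exact h1

/-- [UN-OS3] **Equidistribution of the squarefree sets in the cells.** -/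
theorem card_cell_lim {A R : Finset OPi} (hA : A ⊆ R) {w k : ℕ} (hw : w % 4 = 1) (hk : k ∈ K4)
    (τ : {x // x ∈ A} → ZMod 2) : ∀ ε : ℝ, 0 < ε → ∃ X0 : ℕ, ∀ X : ℕ, X0 ≤ X →
    |((((arQT R).sb X).filter (Cell A R w k τ)).card : ℝ) - 1 / 4 * (1 / 2) ^ A.card * (((arQT R).sb X).card : ℝ)| ≤ ε * X := by
  intro ε hε
  let I : Finset (ℕ × ({x // x ∈ A} → ZMod 2)) := K4 ×ˢ Finset.univ
  have hI : I.card = 4 * 2 ^ A.card := by
    show (K4 ×ˢ (Finset.univ : Finset ({x // x ∈ A} → ZMod 2))).card = _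
    rw [Finset.card_product, card_K4, Finset.card_univ, Fintype.card_fun, ZMod.card, Fintype.card_coe]
  have H : ∀ i : ℕ × ({x // x ∈ A} → ZMod 2), ∃ X0 : ℕ, i ∈ I → ∀ X : ℕ, X0 ≤ X →
      |((((arQT R).sb X).filter (Cell A R w k τ)).card : ℝ) - ((((arQT R).sb X).filter (Cell A R w i.1 i.2)).card : ℝ)| ≤ ε * X := by
    intro i
    by_cases hi : i ∈ I
    · obtain ⟨X0, h⟩ := cell_cell hA w (Finset.mem_product.1 hi).1 hk i.2 τ ε hε
      exact ⟨X0, fun _ => h⟩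
    · exact ⟨0, fun h => absurd h hi⟩
  choose X0 hX0 using H
  refine ⟨∑ i ∈ I, X0 i, fun X hX => ?_⟩
  have h1 : ((arQT R).sb X).card = ∑ i ∈ I, (((arQT R).sb X).filter (Cell A R w i.1 i.2)).card := by
    rw [Finset.card_eq_sum_card_fiberwise
      (f := fun T : Finset (PR R) => ((w * PP.nS (nR R) T) % 16, fun ρ : {x // x ∈ A} => ∑ v ∈ T, sy v.1.1 ρ.1.1)) (t := I)]
    · refine Finset.sum_congr rfl fun i _ => ?_
      congr 1
      refine Finset.filter_congr fun T _ => ?_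
      rw [Prod.ext_iff]
      unfold Cell
      rw [funext_iff]
    · intro T _
      rw [Finset.mem_coe]
      refine Finset.mem_product.2 ⟨mem_K4.2 ⟨?_, Nat.mod_lt _ (by norm_num)⟩, Finset.mem_univ _⟩
      have e0 : (prR R T.val).norm.natAbs = PP.nS (nR R) T := norm_prR R T.val
      have h2 := norm4_prim (prim_prR R T.val)
      rw [e0] at h2
      have h3 : (w * PP.nS (nR R) T) % 4 = 1 := by
        rw [Nat.mul_mod, hw, h2]
      show (w * PP.nS (nR R) T) % 16 % 4 = 1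
      omega
  have h2 : (((arQT R).sb X).card : ℝ) = ∑ i ∈ I, ((((arQT R).sb X).filter (Cell A R w i.1 i.2)).card : ℝ) := by
    exact_mod_cast h1
  set N : ℝ := ((((arQT R).sb X).filter (Cell A R w k τ)).card : ℝ) with hN
  have h3 : (I.card : ℝ) * N - (((arQT R).sb X).card : ℝ) =
      ∑ i ∈ I, (N - ((((arQT R).sb X).filter (Cell A R w i.1 i.2)).card : ℝ)) := by
    rw [Finset.sum_sub_distrib, Finset.sum_const, nsmul_eq_mul, ← h2]
  have h4 : |(I.card : ℝ) * N - (((arQT R).sb X).card : ℝ)| ≤ (I.card : ℝ) * (ε * X) := by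
    rw [h3]
    refine (Finset.abs_sum_le_sum_abs _ _).trans ?_
    refine (Finset.sum_le_card_nsmul _ _ _ fun i hi => ?_).trans (le_of_eq (nsmul_eq_mul _ _))
    refine hX0 i hi X (le_trans ?_ hX)
    exact Finset.single_le_sum (f := X0) (fun _ _ => Nat.zero_le _) hi
  have h5 : (0 : ℝ) < (I.card : ℝ) := by
    rw [hI]
    positivity
  have h6 : (1 / 4 * (1 / 2) ^ A.card : ℝ) = 1 / (I.card : ℝ) := by
    rw [hI]
    push_cast
    rw [one_div_pow]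
    field_simp
  rw [h6]
  have h7 : N - 1 / (I.card : ℝ) * (((arQT R).sb X).card : ℝ) = ((I.card : ℝ) * N - (((arQT R).sb X).card : ℝ)) / (I.card : ℝ) := by
    field_simp
  rw [h7, abs_div, abs_of_pos h5, div_le_iff₀ h5, mul_comm (ε * (X : ℝ))]
  exact h4

end UN
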