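import Pool.Agent.UN.OS1
import Pool.Agent.UN.OS3
import Pool.Agent.QT.Q9
import Pool.Agent.QT.Q11

set_option autoImplicit false

open scoped Classical
open Finset

/-!
# [UN-OS4] the density of the good `D` with `s = t = 0` and given norm modulo `16`
-/

namespace UN

open PI QT

/-- `0` for norms `≡ 1 mod 8`, else `1` -/
def ch8 (n : ℕ) : ZMod 2 := if n % 8 = 1 then 0 else 1

theorem ch8_mul {m n : ℕ} (hm : m % 4 = 1) (hn : n % 4 = 1) : ch8 (m * n) = ch8 m + ch8 n := by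
  have h1 : m % 8 = 1 ∨ m % 8 = 5 := by omega
  have h2 : n % 8 = 1 ∨ n % 8 = 5 := by omega
  have h3 : (m * n) % 8 = ((m % 8) * (n % 8)) % 8 := Nat.mul_mod m n 8
  unfold ch8
  rw [h3]
  rcases h1 with h1 | h1 <;> rcases h2 with h2 | h2 <;> rw [h1, h2] <;> decide

theorem ch8_prime (p : Gi) (hp : Prime p) (hP : Prim p) : sy ii p = ch8 p.norm.natAbs := by
  have h := sy_ii p hp hP
  obtain ⟨h1, h2⟩ := (qr_prim_iff p).1 hP
  have e1 := os3_cast p
  obtain ⟨j, hj⟩ : ∃ j : ℤ, p.im = 2 * j := ⟨p.im / 2, by omega⟩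
  obtain ⟨k, hk⟩ : ∃ k : ℤ, p.re = 2 * k + 1 := ⟨p.re / 2, by omega⟩
  have hkk : ∃ l : ℤ, k * (k + 1) = 2 * l := by
    rcases Int.even_mul_succ_self k with ⟨l, hl⟩
    exact ⟨l, by rw [hl]; ring⟩
  obtain ⟨l, hl⟩ := hkk
  have e2 : (p.norm.natAbs : ℤ) = 8 * l + 1 + 4 * j ^ 2 := by
    rw [e1, hj, hk]
    linear_combination 4 * hl
  unfold ch8
  by_cases hj2 : j % 2 = 0
  · obtain ⟨i, hi⟩ : ∃ i : ℤ, j = 2 * i := ⟨j / 2, by omega⟩
    have e3 : (p.norm.natAbs : ℤ) = 8 * (l + 2 * i ^ 2) + 1 := by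
      rw [e2, hi]
      ring
    rw [if_pos (by omega)]
    exact h.2 (by omega)
  · obtain ⟨i, hi⟩ : ∃ i : ℤ, j = 2 * i + 1 := ⟨j / 2, by omega⟩
    have e3 : (p.norm.natAbs : ℤ) = 8 * (l + 2 * i ^ 2 + 2 * i) + 5 := by
      rw [e2, hi]
      ring
    rw [if_neg (by omega)]
    rcases os3_zmod (sy ii p) with h4 | h4
    · have := h.1 h4
      omega
    · exact h4

theorem nG4 (v : OPi) : nG v % 4 = 1 := norm4_prim v.2.2

theorem prod4 {ι : Type} (S : Finset ι) (f : ι → ℕ) (h : ∀ v ∈ S, f v % 4 = 1) : (∏ v ∈ S, f v) % 4 = 1 := by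
  induction S using Finset.induction_on with
  | empty => rfl
  | insert a s ha ih =>
    rw [Finset.prod_insert ha, Nat.mul_mod, h a (Finset.mem_insert_self _ _),
      ih fun v hv => h v (Finset.mem_insert_of_mem hv)]

theorem ch8_prod {ι : Type} (S : Finset ι) (f : ι → ℕ) (h : ∀ v ∈ S, f v % 4 = 1) :
    ch8 (∏ v ∈ S, f v) = ∑ v ∈ S, ch8 (f v) := by
  induction S using Finset.induction_on with
  | empty => rfl
  | insert a s ha ih =>
    rw [Finset.prod_insert ha, Finset.sum_insert ha, ch8_mul (h a (Finset.mem_insert_self _ _))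
      (prod4 s f fun v hv => h v (Finset.mem_insert_of_mem hv)), ih fun v hv => h v (Finset.mem_insert_of_mem hv)]

theorem nS4 (S : Finset OPi) : PP.nS nG S % 4 = 1 := prod4 S nG fun v _ => nG4 v

theorem nR4 {R : Finset OPi} (T : Finset (PR R)) : PP.nS (nR R) T % 4 = 1 := prod4 T (nR R) fun v _ => nG4 v.1

theorem wt4 (A R : Finset OPi) : wt A R % 4 = 1 := by
  have h2 : (PP.nS nG A ^ 2) % 4 = 1 := by rw [Nat.pow_mod, nS4 A]
  have h4 : (PP.nS nG (R \ A) ^ 3) % 4 = 1 := by rw [Nat.pow_mod, nS4 (R \ A)]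
  unfold wt
  rw [Nat.mul_mod, h2, h4]

theorem ch8_wt (A R : Finset OPi) : ch8 (wt A R) = ∑ κ ∈ R \ A, sy ii κ.1 := by
  have h1 : ch8 (PP.nS nG (R \ A)) = ∑ κ ∈ R \ A, sy ii κ.1 := by
    unfold PP.nS
    rw [ch8_prod _ _ fun v _ => nG4 v]
    exact Finset.sum_congr rfl fun v _ => (ch8_prime v.1 v.2.1 v.2.2).symm
  have h2 : (PP.nS nG A ^ 2) % 4 = 1 := by rw [Nat.pow_mod, nS4 A]
  have h3 : (PP.nS nG (R \ A) ^ 2) % 4 = 1 := by rw [Nat.pow_mod, nS4 (R \ A)]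
  have h4 : (PP.nS nG (R \ A) ^ 3) % 4 = 1 := by rw [Nat.pow_mod, nS4 (R \ A)]
  unfold wt
  rw [ch8_mul h2 h4, sq, ch8_mul (nS4 A) (nS4 A), CharTwo.add_self_eq_zero, zero_add, pow_succ, ch8_mul h3 (nS4 _),
    sq, ch8_mul (nS4 _) (nS4 _), CharTwo.add_self_eq_zero, zero_add, h1]

theorem ch8_nR {R : Finset OPi} (T : Finset (PR R)) : ch8 (PP.nS (nR R) T) = ∑ v ∈ T, sy ii v.1.1 := by
  unfold PP.nS
  rw [ch8_prod _ _ fun v _ => nG4 v.1]
  exact Finset.sum_congr rfl fun v _ => (ch8_prime v.1.1 v.1.2.1 v.1.2.2).symm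

/-- the labels: the norm modulo `16` -/
def hN (R : Finset OPi) (ε : Fin 16) (v : PR R) : ZMod 2 := if nR R v % 16 = ε.val then 1 else 0

/-- the value of a label -/
noncomputable def clN (c : Fin 16 → ZMod 2) : ZMod 16 := ∑ ε : Fin 16, if c ε = 1 then ((ε.val : ℕ) : ZMod 16) else 0

theorem clN_hN (R : Finset OPi) (v : PR R) : clN (fun ε => hN R ε v) = ((nR R v : ℕ) : ZMod 16) := by
  unfold clN hN
  beta_reduce
  have hlt : nR R v % 16 < 16 := Nat.mod_lt _ (by norm_num)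
  rw [Finset.sum_eq_single (⟨nR R v % 16, hlt⟩ : Fin 16)]
  · rw [if_pos rfl, if_pos rfl, ZMod.natCast_mod]
  · intro ε _ hε
    have h1 : ¬ nR R v % 16 = ε.val := fun h => hε (Fin.ext h.symm)
    rw [if_neg h1, if_neg zero_ne_one]
  · intro h
    exact absurd (Finset.mem_univ _) h

theorem clT_hN (R : Finset OPi) (T : Finset (PR R)) : PP.Ar.clT (hN R) clN T = ((PP.nS (nR R) T : ℕ) : ZMod 16) := by
  unfold PP.Ar.clT PP.nS
  rw [Nat.cast_prod]
  exact Finset.prod_congr rfl fun v _ => clN_hN R v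

theorem os4_kap {w n k : ℕ} (hk : k < 16) : ((w : ZMod 16) * (n : ZMod 16) = (k : ZMod 16)) ↔ (w * n) % 16 = k := by
  rw [← Nat.cast_mul, ZMod.natCast_eq_natCast_iff', Nat.mod_eq_of_lt hk]

/-- [UN-OS4] **The density of the good `D` with `s = t = 0` and `N D ≡ k mod 16`, `k = 5, 13`.** -/
theorem dens_k {A R : Finset OPi} (hA : A ⊆ R) {k : ℕ} (hk : k = 5 ∨ k = 13) :
    ∀ ε : ℝ, 0 < ε → ∃ X0 : ℕ, ∀ X : ℕ, X0 ≤ X →
      41885 / 100000 * (1 / 4 * (1 / 2) ^ A.card * (((arQT R).sb X).card : ℝ)) - ε * X ≤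
        ((((arQT R).sb X).filter fun T => Good 0 0 (toS R T) (expo A R) ∧ (wt A R * PP.nS (nR R) T) % 16 = k).card : ℝ) := by
  intro ε hε
  have hk4 : k ∈ K4 := by
    rw [mem_K4]
    omega
  have hk16 : k < 16 := by omega
  let W : PP.Gen (GQ R) (V3 A R) := ⟨wR A R, bR A R, fun f f' _ => hsymR A R f f', xR R ((0 : ℕ) : ZMod 2) ((0 : ℕ) : ZMod 2),
    eR A R ((0 : ℕ) : ZMod 2) ((0 : ℕ) : ZMod 2),
    fun σ => QA A R ((0 : ℕ) : ZMod 2) ((0 : ℕ) : ZMod 2) σ ∧ QX A R 0 0 σ⟩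
  let κ : ZMod 16 → Prop := fun x => (wt A R : ZMod 16) * x = (k : ZMod 16)
  obtain ⟨X1, h1⟩ := PP.Ar.gen_densityK (arQT R) (hN R) W clN κ (fun _ => rfl)
    (fun cF α h => hind0 A R _ _ cF α h) (fun hx => funext fun f => funext fun σ => h0R A R _ _ hx f σ) (ε / 2) (by positivity)
  obtain ⟨X2, h2⟩ := card_cell_lim hA (wt4 A R) hk4 (fun ρ => 1 + ∑ κ ∈ R \ A, sy κ.1 ρ.1.1) (ε / 2) (by positivity)
  refine ⟨max X1 X2, fun X hX => ?_⟩
  have h3 := h1 X ((le_max_left _ _).trans hX)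
  have h4 := (abs_le.1 (h2 X ((le_max_right _ _).trans hX))).1
  -- the cell is contained in the condition
  have h5 : (((arQT R).sb X).filter (Cell A R (wt A R) k (fun ρ => 1 + ∑ κ ∈ R \ A, sy κ.1 ρ.1.1))).card ≤
      (((arQT R).sb X).filter fun T => W.Q (fun γ => ∑ v ∈ T, (arQT R).g γ v) ∧ κ (PP.Ar.clT (hN R) clN T)).card := by
    refine Finset.card_le_card fun T hT => ?_
    obtain ⟨hT1, hT2, hT3⟩ := Finset.mem_filter.1 hT
    refine Finset.mem_filter.2 ⟨hT1, ⟨?_, ?_⟩, ?_⟩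
    · intro ρ hρ
      have h6 := hT3 ⟨ρ.1, hρ⟩
      have h7 : (fun γ => ∑ v ∈ T, (arQT R).g γ v) (Sum.inr ρ) = ∑ v ∈ T, sy v.1.1 ρ.1.1 := rfl
      rw [h7, h6]
      rw [Nat.cast_zero, zero_mul, zero_mul, zero_add, zero_add, add_assoc, CharTwo.add_self_eq_zero, add_zero]
    · right
      left
      refine ⟨rfl, ⟨0, rfl⟩, ?_⟩
      show (∑ v ∈ T, (arQT R).g (Sum.inl 0) v) + ∑ κ ∈ R \ A, sy ii κ.1 = 1
      have h7 : ∑ v ∈ T, (arQT R).g (Sum.inl 0) v = ∑ v ∈ T, sy ii v.1.1 := rfl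
      rw [h7, ← ch8_nR, ← ch8_wt, ← ch8_mul (nR4 T) (wt4 A R), mul_comm]
      unfold ch8
      rw [if_neg]
      omega
    · show (wt A R : ZMod 16) * PP.Ar.clT (hN R) clN T = (k : ZMod 16)
      rw [clT_hN, os4_kap hk16]
      exact hT2
  -- the condition implies the goodness
  have h6 : (((arQT R).sb X).filter fun T : Finset (PR R) => W.Cond (fun u v : T => (arQT R).a u v) (fun (v : T) γ => (arQT R).g γ v) ∧
      κ (PP.Ar.clT (hN R) clN T)).card ≤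
      (((arQT R).sb X).filter fun T => Good 0 0 (toS R T) (expo A R) ∧ (wt A R * PP.nS (nR R) T) % 16 = k).card := by
    refine Finset.card_le_card fun T hT => ?_
    obtain ⟨hT1, hT2, hT3⟩ := Finset.mem_filter.1 hT
    refine Finset.mem_filter.2 ⟨hT1, ?_, ?_⟩
    · refine good_of_cond0 hA (by norm_num) (by norm_num) ?_
      have e1 : PP.bbF (wR A R) (bR A R) (fun u v : T => aR R u v) (fun (v : T) γ => gQ R γ v) =
          W.bb (fun u v : T => aR R u v) (fun (v : T) γ => gQ R γ v) := by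
        funext i j
        rcases i with i | i <;> rcases j with j | j <;> rfl
      have e2 : PP.eeF (xR R ((0 : ℕ) : ZMod 2) ((0 : ℕ) : ZMod 2)) (eR A R ((0 : ℕ) : ZMod 2) ((0 : ℕ) : ZMod 2))
          (fun (v : T) γ => gQ R γ v) = W.ee (fun (v : T) γ => gQ R γ v) := by
        funext i
        rcases i with i | i <;> rfl
      unfold Cond0 PP.CondF
      rw [e1, e2]
      exact hT2
    · have h7 : (wt A R : ZMod 16) * PP.Ar.clT (hN R) clN T = (k : ZMod 16) := hT3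
      rw [clT_hN, os4_kap hk16] at h7
      exact h7
  have h5' : ((((arQT R).sb X).filter (Cell A R (wt A R) k (fun ρ => 1 + ∑ κ ∈ R \ A, sy κ.1 ρ.1.1))).card : ℝ) ≤
      ((((arQT R).sb X).filter fun T => W.Q (fun γ => ∑ v ∈ T, (arQT R).g γ v) ∧ κ (PP.Ar.clT (hN R) clN T)).card : ℝ) := by
    exact_mod_cast h5
  have h6' : ((((arQT R).sb X).filter fun T : Finset (PR R) => W.Cond (fun u v : T => (arQT R).a u v) (fun (v : T) γ => (arQT R).g γ v) ∧
      κ (PP.Ar.clT (hN R) clN T)).card : ℝ) ≤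
      ((((arQT R).sb X).filter fun T => Good 0 0 (toS R T) (expo A R) ∧ (wt A R * PP.nS (nR R) T) % 16 = k).card : ℝ) := by
    exact_mod_cast h6
  have h3' : 41885 / 100000 * ((((arQT R).sb X).filter fun T => W.Q (fun γ => ∑ v ∈ T, (arQT R).g γ v) ∧
      κ (PP.Ar.clT (hN R) clN T)).card : ℝ) - ε / 2 * X ≤
      ((((arQT R).sb X).filter fun T : Finset (PR R) => W.Cond (fun u v : T => (arQT R).a u v) (fun (v : T) γ => (arQT R).g γ v) ∧
        κ (PP.Ar.clT (hN R) clN T)).card : ℝ) := by convert h3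
  have h9 : (0 : ℝ) ≤ ε * X := by positivity
  linarith

end UN
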