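import Pool.Agent.UN.OS4
import Pool.Agent.UNY.I2

set_option autoImplicit false

open scoped Classical
open Finset

/-!
# [UN-OS5] the class of good reduction above `2`, and the density for fixed `A ⊆ R`
-/

namespace UN

open PI QT

/-- the group `re ≡ 1 mod 4`, `im` even -/
def Star (a : Gi) : Prop := a.re % 4 = 1 ∧ a.im % 2 = 0

theorem star_mul {a b : Gi} (ha : Star a) (hb : Star b) : Star (a * b) := by
  obtain ⟨h1, h2⟩ := ha
  obtain ⟨h3, h4⟩ := hb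
  obtain ⟨x, hx⟩ : ∃ x : ℤ, a.re = 4 * x + 1 := ⟨a.re / 4, by omega⟩
  obtain ⟨y, hy⟩ : ∃ y : ℤ, a.im = 2 * y := ⟨a.im / 2, by omega⟩
  obtain ⟨z, hz⟩ : ∃ z : ℤ, b.re = 4 * z + 1 := ⟨b.re / 4, by omega⟩
  obtain ⟨w, hw⟩ : ∃ w : ℤ, b.im = 2 * w := ⟨b.im / 2, by omega⟩
  constructor
  · rw [s1a_mul_re, hx, hy, hz, hw]
    have e : (4 * x + 1) * (4 * z + 1) - 2 * y * (2 * w) = 4 * (4 * x * z + x + z - y * w) + 1 := by ring
    rw [e]
    omega
  · rw [s1a_mul_im, hx, hy, hz, hw]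
    have e : (4 * x + 1) * (2 * w) + 2 * y * (4 * z + 1) = 2 * ((4 * x + 1) * w + y * (4 * z + 1)) := by ring
    rw [e]
    omega

theorem star_one : Star 1 := by
  constructor <;> decide

theorem star_pow {a : Gi} (ha : Star a) (n : ℕ) : Star (a ^ n) := by
  induction n with
  | zero => rw [pow_zero]; exact star_one
  | succ n ih => rw [pow_succ]; exact star_mul ih ha

theorem star_prod {ι : Type} (S : Finset ι) (f : ι → Gi) (h : ∀ i ∈ S, Star (f i)) : Star (∏ i ∈ S, f i) := by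
  induction S using Finset.induction_on with
  | empty => rw [Finset.prod_empty]; exact star_one
  | insert a s ha ih =>
    rw [Finset.prod_insert ha]
    exact star_mul (h a (Finset.mem_insert_self _ _)) (ih fun i hi => h i (Finset.mem_insert_of_mem hi))

theorem star_st {p : Gi} (hp : Prim p) : Star (st p) := by
  obtain ⟨h1, h2⟩ := (qr_prim_iff p).1 hp
  unfold st
  split_ifs with h
  · constructor <;> omega
  · constructor
    · rw [Zsqrtd.re_neg]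
      omega
    · rw [Zsqrtd.im_neg]
      omega

/-- the product of the `p*` -/
noncomputable def pst (S : Finset Gi) (a : Gi → ℕ) : Gi := ∏ p ∈ S, st p ^ a p

theorem star_pst {s t : ℕ} {S : Finset Gi} {a : Gi → ℕ} (h : Adm s t S a) : Star (pst S a) :=
  star_prod S _ fun p hp => star_pow (star_st (h.1 p hp).2) _

theorem star_C0 {a : Gi} (ha : Star a) : C0 a ↔ a.norm.natAbs % 16 = 5 := by
  obtain ⟨h1, h2⟩ := ha
  obtain ⟨x, hx⟩ : ∃ x : ℤ, a.re = 4 * x + 1 := ⟨a.re / 4, by omega⟩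
  obtain ⟨y, hy⟩ : ∃ y : ℤ, a.im = 2 * y := ⟨a.im / 2, by omega⟩
  have e1 := os3_cast a
  unfold C0
  by_cases hy2 : y % 2 = 0
  · obtain ⟨j, hj⟩ : ∃ j : ℤ, y = 2 * j := ⟨y / 2, by omega⟩
    have e2 : (a.norm.natAbs : ℤ) = 8 * (2 * x ^ 2 + x + 2 * j ^ 2) + 1 := by
      rw [e1, hx, hy, hj]
      ring
    constructor
    · intro h
      omega
    · intro h
      omega
  · obtain ⟨j, hj⟩ : ∃ j : ℤ, y = 2 * j + 1 := ⟨y / 2, by omega⟩
    have e2 : (a.norm.natAbs : ℤ) = 16 * (x ^ 2 + j ^ 2 + j) + 8 * x + 5 := by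
      rw [e1, hx, hy, hj]
      ring
    constructor
    · intro h
      omega
    · intro h
      constructor <;> omega

/-- [UN-OS5a] the class of good reduction in terms of the data -/
theorem C0_Dd {s t : ℕ} {S : Finset Gi} {a : Gi → ℕ} (h : Adm s t S a) :
    C0 (Dd s t S a) ↔ s = 0 ∧ t = 0 ∧ (Dd s t S a).norm.natAbs % 16 = 5 := by
  have hs := star_pst h
  have e : Dd s t S a = ii ^ s * la ^ t * pst S a := rfl
  have h3 : s ≤ 3 := h.2.2.1
  constructor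
  · intro hC
    have ht : t = 0 := by
      by_contra ht
      have h1 : la ∣ Dd s t S a := by
        rw [e]
        exact ((dvd_pow_self la ht).mul_left _).mul_right _
      rw [PI.la_dvd_iff] at h1
      obtain ⟨h2, h4⟩ := hC
      omega
    subst ht
    have hs0 : s = 0 := by
      by_contra hs0
      obtain ⟨h1, h2⟩ := hC
      obtain ⟨h4, h5⟩ := hs
      rw [e, pow_zero, mul_one] at h1 h2
      have h6 : s = 1 ∨ s = 2 ∨ s = 3 := by omega
      rcases h6 with rfl | rfl | rfl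
      · rw [pow_one, (s1a_ii_mul _).1] at h1
        omega
      · have e2 : ii ^ 2 = -1 := by decide
        rw [e2, neg_one_mul, Zsqrtd.re_neg] at h1
        omega
      · have e2 : ii ^ 3 = -ii := by decide
        rw [e2, neg_mul, Zsqrtd.re_neg, (s1a_ii_mul _).1] at h1
        omega
    subst hs0
    refine ⟨rfl, rfl, ?_⟩
    have e3 : Dd 0 0 S a = pst S a := by
      rw [e, pow_zero, pow_zero, one_mul, one_mul]
    rw [e3] at hC ⊢
    exact (star_C0 hs).1 hC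
  · rintro ⟨rfl, rfl, h1⟩
    have e3 : Dd 0 0 S a = pst S a := by
      rw [e, pow_zero, pow_zero, one_mul, one_mul]
    rw [e3] at h1 ⊢
    exact (star_C0 hs).2 h1

theorem C0_DT {s t : ℕ} (hs : s ≤ 3) (ht : t ≤ 3) {A R : Finset OPi} (hA : A ⊆ R) (T : Finset (PR R)) :
    C0 (Dd s t (toS R T) (expo A R)) ↔ s = 0 ∧ t = 0 ∧ (wt A R * PP.nS (nR R) T) % 16 = 5 := by
  rw [C0_Dd (adm_DT hs ht A R T)]
  constructor
  · rintro ⟨rfl, rfl, h⟩
    rw [norm_DT 0 0 hA, pow_zero, one_mul, mul_comm] at h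
    exact ⟨rfl, rfl, h⟩
  · rintro ⟨rfl, rfl, h⟩
    refine ⟨rfl, rfl, ?_⟩
    rw [norm_DT 0 0 hA, pow_zero, one_mul, mul_comm]
    exact h

/-- not in the class of good reduction -/
def NC (A R : Finset OPi) (s t : ℕ) (T : Finset (PR R)) : Prop := ¬ (s = 0 ∧ t = 0 ∧ (wt A R * PP.nS (nR R) T) % 16 = 5)

/-- the number of the good `D` outside of the class -/
noncomputable def gNC (A R : Finset OPi) (X : ℕ) : ℝ := ∑ t ∈ range 4, ∑ s ∈ range 4,
  ((((arQT R).sb (X / 2 ^ t)).filter fun T => Good s t (toS R T) (expo A R) ∧ NC A R s t T).card : ℝ)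

/-- the number of the good `D` in the class -/
noncomputable def gC (A R : Finset OPi) (X : ℕ) : ℝ :=
  ((((arQT R).sb X).filter fun T => Good 0 0 (toS R T) (expo A R) ∧ (wt A R * PP.nS (nR R) T) % 16 = 5).card : ℝ)

theorem card_NC (A R : Finset OPi) {s t : ℕ} (h : s ≠ 0 ∨ t ≠ 0) (X : ℕ) :
    ((((arQT R).sb X).filter fun T => Good s t (toS R T) (expo A R) ∧ NC A R s t T).card : ℝ) =
      ((((arQT R).sb X).filter fun T => Good s t (toS R T) (expo A R)).card : ℝ) := by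
  congr 2
  refine Finset.filter_congr fun T _ => ?_
  unfold NC
  constructor
  · exact fun h1 => h1.1
  · refine fun h1 => ⟨h1, fun h2 => ?_⟩
    rcases h with h | h
    · exact h h2.1
    · exact h h2.2.1

theorem card_NC13 (A R : Finset OPi) (X : ℕ) :
    ((((arQT R).sb X).filter fun T => Good 0 0 (toS R T) (expo A R) ∧ (wt A R * PP.nS (nR R) T) % 16 = 13).card : ℝ) ≤
      ((((arQT R).sb X).filter fun T => Good 0 0 (toS R T) (expo A R) ∧ NC A R 0 0 T).card : ℝ) := by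
  have h : (((arQT R).sb X).filter fun T => Good 0 0 (toS R T) (expo A R) ∧ (wt A R * PP.nS (nR R) T) % 16 = 13) ⊆
      ((arQT R).sb X).filter fun T => Good 0 0 (toS R T) (expo A R) ∧ NC A R 0 0 T := by
    intro T hT
    obtain ⟨h1, h2, h3⟩ := Finset.mem_filter.1 hT
    refine Finset.mem_filter.2 ⟨h1, h2, fun h4 => ?_⟩
    have h5 := h4.2.2
    omega
  exact_mod_cast Finset.card_le_card h

theorem os5_fin {a n0 n1 n2 n3 n4 g0 g1 g2 g3 g4 K ε x x1 x2 x3 : ℝ} (ha : 0 ≤ a) (ha1 : a ≤ 1) (hε : 0 ≤ ε)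
    (hx : 0 ≤ x) (h1 : x1 ≤ x) (h2 : x2 ≤ x) (h3 : x3 ≤ x)
    (b0 : |n0 - K * (x / 1)| ≤ 2 * (ε / 200) * x) (b1 : |n1 - K * (x / 2)| ≤ 2 * (ε / 200) * x)
    (b2 : |n2 - K * (x / 4)| ≤ 2 * (ε / 200) * x) (b3 : |n3 - K * (x / 8)| ≤ 2 * (ε / 200) * x)
    (b4 : |n4 - K * (16 * x)| ≤ ε / 200 * (16 * x))
    (c0 : 41885 / 100000 * (11 / 4 * a * n0) - ε / 50 * x ≤ g0) (c1 : 41885 / 100000 * (4 * a * n1) - ε / 200 * x1 ≤ g1)
    (c2 : 41885 / 100000 * (2 * a * n2) - ε / 200 * x2 ≤ g2) (c3 : 41885 / 100000 * (4 * a * n3) - ε / 200 * x3 ≤ g3)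
    (c4 : 41885 / 100000 * (1 / 4 * a * n4) - ε / 200 * (16 * x) ≤ g4) :
    41885 / 100000 * (13 / 10) * a * (4 * (n0 + n1 + n2 + n3)) - ε * x ≤ g0 + g1 + g2 + g3 + g4 := by
  rw [abs_le] at b0 b1 b2 b3 b4
  have hεx : 0 ≤ ε * x := mul_nonneg hε hx
  have key : 26 / 5 * (n0 + n1 + n2 + n3) - ε * x / 2 ≤ 11 / 4 * n0 + 4 * n1 + 2 * n2 + 4 * n3 + 1 / 4 * n4 := by
    obtain ⟨p0, q0⟩ := b0
    obtain ⟨p1, q1⟩ := b1
    obtain ⟨p2, q2⟩ := b2
    obtain ⟨p3, q3⟩ := b3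
    obtain ⟨p4, q4⟩ := b4
    nlinarith
  have key2 := mul_le_mul_of_nonneg_left key ha
  have h5 : a * (ε * x / 2) ≤ ε * x / 2 := by
    have : 0 ≤ ε * x / 2 := by linarith
    exact mul_le_of_le_one_left this ha1
  have h6 : ε * x1 ≤ ε * x := mul_le_mul_of_nonneg_left h1 hε
  have h7 : ε * x2 ≤ ε * x := mul_le_mul_of_nonneg_left h2 hε
  have h8 : ε * x3 ≤ ε * x := mul_le_mul_of_nonneg_left h3 hε
  nlinarith

/-- [UN-OS5b] the class `t = 0` -/
theorem os5_t0 {A R : Finset OPi} (hA : A ⊆ R) : ∀ ε : ℝ, 0 < ε → ∃ X0 : ℕ, ∀ X : ℕ, X0 ≤ X →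
    41885 / 100000 * (11 / 4 * (1 / 2) ^ A.card * (((arQT R).sb X).card : ℝ)) - ε * X ≤
      ∑ s ∈ range 4, ((((arQT R).sb X).filter fun T => Good s 0 (toS R T) (expo A R) ∧ NC A R s 0 T).card : ℝ) := by
  intro ε hε
  obtain ⟨Y0, h0⟩ := dens_k hA (Or.inr rfl : (13 : ℕ) = 5 ∨ (13 : ℕ) = 13) (ε / 4) (by positivity)
  obtain ⟨Y1, h1⟩ := dens_st hA (s := 1) (t := 0) (by norm_num) (by norm_num) (ε / 4) (by positivity)
  obtain ⟨Y2, h2⟩ := dens_st hA (s := 2) (t := 0) (by norm_num) (by norm_num) (ε / 4) (by positivity)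
  obtain ⟨Y3, h3⟩ := dens_st hA (s := 3) (t := 0) (by norm_num) (by norm_num) (ε / 4) (by positivity)
  refine ⟨Y0 + Y1 + Y2 + Y3, fun X hX => ?_⟩
  have a0 := h0 X (by omega)
  have a1 := h1 X (by omega)
  have a2 := h2 X (by omega)
  have a3 := h3 X (by omega)
  have e1 : kst 1 0 = 1 := by
    have : ¬ Even 1 := by decide
    simp [kst, this]
  have e2 : kst 2 0 = 1 / 2 := by
    have : Even 2 := ⟨1, rfl⟩
    simp [kst, this]
  have e3 : kst 3 0 = 1 := by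
    have : ¬ Even 3 := by decide
    simp [kst, this]
  rw [e1] at a1
  rw [e2] at a2
  rw [e3] at a3
  rw [Finset.sum_range_succ, Finset.sum_range_succ, Finset.sum_range_succ, Finset.sum_range_one,
    card_NC A R (Or.inl (by norm_num : (1 : ℕ) ≠ 0)), card_NC A R (Or.inl (by norm_num : (2 : ℕ) ≠ 0)),
    card_NC A R (Or.inl (by norm_num : (3 : ℕ) ≠ 0))]
  have b0 := a0.trans (card_NC13 A R X)
  linarith

/-- [UN-OS5] **The density for fixed `A ⊆ R`.** -/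
theorem dens_fin {A R : Finset OPi} (hA : A ⊆ R) : ∀ ε : ℝ, 0 < ε → ∃ X0 : ℕ, ∀ X : ℕ, X0 ≤ X →
    41885 / 100000 * (13 / 10) * (1 / 2) ^ A.card * (4 * ∑ t ∈ range 4, (((arQT R).sb (X / 2 ^ t)).card : ℝ)) - ε * X ≤
      gNC A R X + gC A R (16 * X) := by
  intro ε hε
  obtain ⟨κ, hκ, hsb⟩ := q9_card_sb R
  have hε' : 0 < ε / 200 := by positivity
  have hcl := fun {m : ℕ} (hm : 0 < m) =>
    q9_close (m := m) (f := fun X => (((arQT R).sb X).card : ℝ)) hκ hε' (hsb (ε / 200) hε') hm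
  obtain ⟨Y0, hY0⟩ := hcl one_pos
  obtain ⟨Y1, hY1⟩ := hcl (show 0 < 2 by norm_num)
  obtain ⟨Y2, hY2⟩ := hcl (show 0 < 4 by norm_num)
  obtain ⟨Y3, hY3⟩ := hcl (show 0 < 8 by norm_num)
  obtain ⟨Y4, hY4⟩ := hsb (ε / 200) hε'
  obtain ⟨Z0, h0⟩ := os5_t0 hA (ε / 50) (by positivity)
  obtain ⟨Z1, h1⟩ := q9_s hA (t := 1) (by norm_num) (ε / 200) hε'
  obtain ⟨Z2, h2⟩ := q9_s hA (t := 2) (by norm_num) (ε / 200) hε'
  obtain ⟨Z3, h3⟩ := q9_s hA (t := 3) (by norm_num) (ε / 200) hε'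
  obtain ⟨Z4, h4⟩ := dens_k hA (Or.inl rfl : (5 : ℕ) = 5 ∨ (5 : ℕ) = 13) (ε / 200) hε'
  refine ⟨Y0 + Y1 + Y2 + Y3 + Y4 + Z0 + 2 * Z1 + 4 * Z2 + 8 * Z3 + Z4, fun X hX => ?_⟩
  have a0 := h0 X (by omega)
  have a1 := h1 (X / 2) (by omega)
  have a2 := h2 (X / 4) (by omega)
  have a3 := h3 (X / 8) (by omega)
  have a4 := h4 (16 * X) (by omega)
  rw [q9_k1] at a1
  rw [q9_k2] at a2
  rw [q9_k3] at a3
  have b0 := hY0 X (by omega)
  have b1 := hY1 X (by omega)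
  have b2 := hY2 X (by omega)
  have b3 := hY3 X (by omega)
  have b4 := hY4 (16 * X) (by omega)
  rw [Nat.div_one, Nat.cast_one] at b0
  rw [show ((2 : ℕ) : ℝ) = 2 from rfl] at b1
  rw [show ((4 : ℕ) : ℝ) = 4 from rfl] at b2
  rw [show ((8 : ℕ) : ℝ) = 8 from rfl] at b3
  push_cast at b4 a4
  have e1 : ∀ f : ℕ → ℝ, ∑ t ∈ range 4, f (2 ^ t) = f 1 + f 2 + f 4 + f 8 := by
    intro f
    rw [Finset.sum_range_succ, Finset.sum_range_succ, Finset.sum_range_succ, Finset.sum_range_one]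
    norm_num
  have hn : ∀ {t : ℕ}, t ≠ 0 → ∀ Y : ℕ, ∑ s ∈ range 4,
      ((((arQT R).sb Y).filter fun T => Good s t (toS R T) (expo A R) ∧ NC A R s t T).card : ℝ) =
      ∑ s ∈ range 4, ((((arQT R).sb Y).filter fun T => Good s t (toS R T) (expo A R)).card : ℝ) := fun ht Y =>
    Finset.sum_congr rfl fun s _ => card_NC A R (Or.inr ht) Y
  have e2 : gNC A R X =
      ∑ s ∈ range 4, ((((arQT R).sb X).filter fun T => Good s 0 (toS R T) (expo A R) ∧ NC A R s 0 T).card : ℝ) +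
      ∑ s ∈ range 4, ((((arQT R).sb (X / 2)).filter fun T => Good s 1 (toS R T) (expo A R)).card : ℝ) +
      ∑ s ∈ range 4, ((((arQT R).sb (X / 4)).filter fun T => Good s 2 (toS R T) (expo A R)).card : ℝ) +
      ∑ s ∈ range 4, ((((arQT R).sb (X / 8)).filter fun T => Good s 3 (toS R T) (expo A R)).card : ℝ) := by
    unfold gNC
    rw [Finset.sum_range_succ, Finset.sum_range_succ, Finset.sum_range_succ, Finset.sum_range_one, pow_zero,
      pow_one, Nat.div_one, hn one_ne_zero, hn two_ne_zero, hn three_ne_zero]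
    norm_num
  rw [e2, e1 (fun m => (((arQT R).sb (X / m)).card : ℝ)), Nat.div_one]
  have hx0 : (0 : ℝ) ≤ X := Nat.cast_nonneg X
  have hd : ∀ m : ℕ, ((X / m : ℕ) : ℝ) ≤ X := fun m => by exact_mod_cast Nat.div_le_self _ _
  unfold gC
  exact os5_fin (by positivity) (pow_le_one₀ (by norm_num) (by norm_num)) hε.le hx0 (hd 2) (hd 4) (hd 8)
    b0 b1 b2 b3 b4 a0 a1 a2 a3 a4

end UN
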