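import Pool.Agent.UN.OS5
import Pool.Agent.QT.Q10n
import Pool.Agent.QT.Q12a

set_option autoImplicit false

open scoped Classical
open Finset

/-!
# [UN-OS6] the number of the good `D`, the class of good reduction up to `16 X`
-/

namespace UN

open PI QT

/-- the good `D` outside of the class -/
def quarN (X : ℕ) : Set Gi :=
  {D | D ∈ quarA X ∧ ¬ C0 D ∧ ∃ (s t : ℕ) (S : Finset Gi) (a : Gi → ℕ), Good s t S a ∧ D = Dd s t S a}

/-- the good `D` in the class -/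
def quarC (X : ℕ) : Set Gi :=
  {D | D ∈ quarA X ∧ C0 D ∧ ∃ (s t : ℕ) (S : Finset Gi) (a : Gi → ℕ), Good s t S a ∧ D = Dd s t S a}

theorem le_quarN (X : ℕ) (F : Finset (Finset OPi)) :
    ∑ R ∈ F, ∑ A ∈ R.powerset, gNC A R (X / wt A R) ≤ ((quarN X).ncard : ℝ) := by
  have h := le_ncard X F (fun R A s t T => Good s t (toS R T) (expo A R) ∧ NC A R s t T) (quarN X) (fun _ hD => hD.1.2.2)
    fun R A s t T hA hs ht h1 h2 => ⟨h2, fun h3 => h1.2 ((C0_DT hs ht hA T).1 h3), s, t, toS R T, expo A R, h1.1, rfl⟩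
  unfold gNC
  refine le_trans (le_of_eq ?_) (Nat.cast_le.2 h)
  push_cast
  refine Finset.sum_congr rfl fun R _ => Finset.sum_congr rfl fun A _ => Finset.sum_congr rfl fun t _ =>
    Finset.sum_congr rfl fun s _ => ?_
  congr!

theorem le_quarC (X : ℕ) (F : Finset (Finset OPi)) :
    ∑ R ∈ F, ∑ A ∈ R.powerset, gC A R (16 * (X / wt A R)) ≤ ((quarC (16 * X)).ncard : ℝ) := by
  have h := le_ncard (16 * X) F (fun R A s t T => Good s t (toS R T) (expo A R) ∧ (s = 0 ∧ t = 0 ∧ (wt A R * PP.nS (nR R) T) % 16 = 5))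
    (quarC (16 * X)) (fun _ hD => hD.1.2.2)
    fun R A s t T hA hs ht h1 h2 => ⟨h2, (C0_DT hs ht hA T).2 h1.2, s, t, toS R T, expo A R, h1.1, rfl⟩
  have h1 : ∀ R ∈ F, ∀ A ∈ R.powerset,
      (((arQT R).sb (16 * (X / wt A R))).filter fun T => Good 0 0 (toS R T) (expo A R) ∧ (wt A R * PP.nS (nR R) T) % 16 = 5).card ≤
      ∑ t ∈ range 4, ∑ s ∈ range 4, (((arQT R).sb (16 * X / wt A R / 2 ^ t)).filter fun T => Good s t (toS R T) (expo A R) ∧
        (s = 0 ∧ t = 0 ∧ (wt A R * PP.nS (nR R) T) % 16 = 5)).card := by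
    intro R _ A _
    refine le_trans ?_ (Finset.single_le_sum (f := fun t => ∑ s ∈ range 4, (((arQT R).sb (16 * X / wt A R / 2 ^ t)).filter fun T =>
      Good s t (toS R T) (expo A R) ∧ (s = 0 ∧ t = 0 ∧ (wt A R * PP.nS (nR R) T) % 16 = 5)).card) (fun _ _ => Nat.zero_le _)
      (Finset.mem_range.2 (show 0 < 4 by norm_num)))
    refine le_trans ?_ (Finset.single_le_sum (f := fun s => (((arQT R).sb (16 * X / wt A R / 2 ^ 0)).filter fun T =>
      Good s 0 (toS R T) (expo A R) ∧ (s = 0 ∧ 0 = 0 ∧ (wt A R * PP.nS (nR R) T) % 16 = 5)).card) (fun _ _ => Nat.zero_le _)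
      (Finset.mem_range.2 (show 0 < 4 by norm_num)))
    refine Finset.card_le_card fun T hT => ?_
    obtain ⟨h2, h3, h4⟩ := Finset.mem_filter.1 hT
    refine Finset.mem_filter.2 ⟨?_, h3, rfl, rfl, h4⟩
    refine (arQT R).mem_sb.2 (((arQT R).mem_sb.1 h2).trans ?_)
    rw [pow_zero, Nat.div_one]
    exact Nat.mul_div_le_mul_div_assoc 16 X (wt A R)
  unfold gC
  refine le_trans ?_ (Nat.cast_le.2 h)
  push_cast
  refine Finset.sum_le_sum fun R hR => Finset.sum_le_sum fun A hA => ?_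
  refine (Nat.cast_le.2 (h1 R hR A hA)).trans (le_of_eq ?_)
  push_cast
  refine Finset.sum_congr rfl fun t _ => Finset.sum_congr rfl fun s _ => ?_
  congr!

/-- **The density theorem**, general form. -/
theorem density_gen {q : ℝ} (hq0 : 0 < q) (g : Finset OPi → Finset OPi → ℕ → ℝ) (N : ℕ → ℝ)
    (hd : ∀ A R : Finset OPi, A ⊆ R → ∀ ε : ℝ, 0 < ε → ∃ X0 : ℕ, ∀ X : ℕ, X0 ≤ X →
      q * (1 / 2) ^ A.card * (4 * ∑ t ∈ range 4, (((arQT R).sb (X / 2 ^ t)).card : ℝ)) - ε * X ≤ g A R X)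
    (hN : ∀ (X : ℕ) (F : Finset (Finset OPi)), ∑ R ∈ F, ∑ A ∈ R.powerset, g A R (X / wt A R) ≤ N X)
    {α : ℝ} (ha : Average α) (m : ℕ) (hm : (m : ℝ) < 1000 * q * α) :
    ∃ X0 : ℕ, ∀ X : ℕ, X0 ≤ X → (m : ℝ) * ((quarA X).ncard : ℝ) ≤ 1000 * N X := by
  obtain ⟨δ, hδ⟩ : ∃ δ : ℝ, δ = 1000 * q * α - m := ⟨_, rfl⟩
  have hδ0 : 0 < δ := by
    rw [hδ]
    linarith
  -- the lower bound for the sum
  obtain ⟨c, hc, Z0, hZ⟩ : ∃ c : ℝ, 0 < c ∧ ∃ Z0 : ℕ, ∀ X : ℕ, Z0 ≤ X → c * X ≤ (((arQT ∅).sb X).card : ℝ) := by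
    obtain ⟨Z0, hZ0⟩ := kap_spec ∅ (kap ∅ / 2) (half_pos (kap_pos ∅))
    refine ⟨kap ∅ / 2, half_pos (kap_pos ∅), Z0, fun X hX => ?_⟩
    have := (abs_le.1 (hZ0 X hX)).1
    linarith
  have hm0 : (0 : ℝ) ≤ m := Nat.cast_nonneg m
  obtain ⟨B, hB⟩ := quarA_le_F (δ * c / (m + 1)) (by positivity)
  obtain ⟨F, hF⟩ : ∃ F : Finset (Finset OPi), F = (gar.pb B).powerset := ⟨_, rfl⟩
  obtain ⟨Z1, h1⟩ := ha B (δ * c / (4000 * q)) (by positivity)
  obtain ⟨K, hK⟩ : ∃ K : ℕ, K = ∑ R ∈ F, R.powerset.card := ⟨_, rfl⟩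
  have hε2 : 0 < δ * c / (1000 * ((K : ℝ) + 1)) := by positivity
  have H := fun A R : Finset OPi => fun hAR : A ⊆ R => hd A R hAR (δ * c / (1000 * ((K : ℝ) + 1))) hε2
  choose! Y hY using H
  refine ⟨Z0 + Z1 + ∑ R ∈ F, ∑ A ∈ R.powerset, wt A R * (Y A R + 1), fun X hX => ?_⟩
  have hx0 : (0 : ℝ) ≤ X := Nat.cast_nonneg X
  obtain ⟨S, hS⟩ : ∃ S : ℝ, S = ∑ R ∈ F, ∑ A ∈ R.powerset, qf X A R := ⟨_, rfl⟩
  -- the good ones
  have hterm : ∀ R ∈ F, ∀ A ∈ R.powerset, q * (1 / 2) ^ A.card * (4 * qf X A R) - δ * c / (1000 * ((K : ℝ) + 1)) * X ≤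
      g A R (X / wt A R) := by
    intro R hR A hA
    have hAR := Finset.mem_powerset.1 hA
    have hle : wt A R * (Y A R + 1) ≤ X := by
      have h2 : wt A R * (Y A R + 1) ≤ ∑ A ∈ R.powerset, wt A R * (Y A R + 1) :=
        Finset.single_le_sum (f := fun A => wt A R * (Y A R + 1)) (fun i _ => Nat.zero_le _) hA
      have h3 : ∑ A ∈ R.powerset, wt A R * (Y A R + 1) ≤ ∑ R ∈ F, ∑ A ∈ R.powerset, wt A R * (Y A R + 1) :=
        Finset.single_le_sum (f := fun R => ∑ A ∈ R.powerset, wt A R * (Y A R + 1)) (fun i _ => Nat.zero_le _) hR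
      omega
    have hY' : Y A R ≤ X / wt A R := by
      rw [Nat.le_div_iff_mul_le (wt_pos A R)]
      calc Y A R * wt A R ≤ (Y A R + 1) * wt A R := Nat.mul_le_mul_right _ (Nat.le_succ _)
        _ = wt A R * (Y A R + 1) := by ring
        _ ≤ X := hle
    have h2 := hY A R hAR _ hY'
    have h3 : ((X / wt A R : ℕ) : ℝ) ≤ X := by exact_mod_cast Nat.div_le_self _ _
    have h4 := mul_le_mul_of_nonneg_left h3 hε2.le
    have h5 : q * (1 / 2) ^ A.card * (4 * qf X A R) - δ * c / (1000 * ((K : ℝ) + 1)) * X ≤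
        q * (1 / 2) ^ A.card * (4 * qf X A R) - δ * c / (1000 * ((K : ℝ) + 1)) * ((X / wt A R : ℕ) : ℝ) := by
      linarith
    exact h5.trans h2
  have hsum : ∑ R ∈ F, ∑ A ∈ R.powerset, (q * (1 / 2) ^ A.card * (4 * qf X A R) - δ * c / (1000 * ((K : ℝ) + 1)) * X) ≤
      N X :=
    (Finset.sum_le_sum fun R hR => Finset.sum_le_sum fun A hA => hterm R hR A hA).trans (hN X F)
  have hsplit : ∑ R ∈ F, ∑ A ∈ R.powerset, (q * (1 / 2) ^ A.card * (4 * qf X A R) - δ * c / (1000 * ((K : ℝ) + 1)) * X) =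
      4 * q * ∑ R ∈ F, ∑ A ∈ R.powerset, (1 / 2) ^ A.card * qf X A R - K * (δ * c / (1000 * ((K : ℝ) + 1)) * X) := by
    rw [Finset.mul_sum]
    have e1 : (K : ℝ) * (δ * c / (1000 * ((K : ℝ) + 1)) * X) =
        ∑ R ∈ F, (R.powerset.card : ℝ) * (δ * c / (1000 * ((K : ℝ) + 1)) * X) := by
      rw [← Finset.sum_mul]
      congr 1
      rw [hK]
      push_cast
      rfl
    rw [e1, ← Finset.sum_sub_distrib]
    refine Finset.sum_congr rfl fun R _ => ?_
    rw [Finset.sum_sub_distrib, Finset.sum_const, nsmul_eq_mul, Finset.mul_sum]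
    congr 1
    refine Finset.sum_congr rfl fun A _ => ?_
    ring
  rw [hsplit] at hsum
  have hKc : (K : ℝ) * (δ * c / (1000 * ((K : ℝ) + 1)) * X) ≤ δ * c / 1000 * X := by
    have h0 : (0 : ℝ) ≤ K := Nat.cast_nonneg _
    have h1 : (K : ℝ) * (δ * c / (1000 * ((K : ℝ) + 1)) * X) = ((K : ℝ) / ((K : ℝ) + 1)) * (δ * c / 1000 * X) := by
      field_simp
    rw [h1]
    have h2 : (K : ℝ) / ((K : ℝ) + 1) ≤ 1 := by
      rw [div_le_one (by positivity)]
      linarith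
    have h3 : 0 ≤ δ * c / 1000 * (X : ℝ) := by positivity
    calc _ ≤ 1 * (δ * c / 1000 * (X : ℝ)) := mul_le_mul_of_nonneg_right h2 h3
      _ = _ := one_mul _
  have havg := h1 X (by omega)
  rw [← hF, ← hS] at havg
  have havg' := mul_le_mul_of_nonneg_left havg (by positivity : 0 ≤ 4 * q)
  have e2 : 4 * q * (α * S - δ * c / (4000 * q) * X) = 4 * q * α * S - δ * c / 1000 * X := by
    field_simp
    ring
  have hall := hB X
  rw [← hF, ← hS] at hall
  have hall' := mul_le_mul_of_nonneg_left hall hm0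
  have e3 : (m : ℝ) * (δ * c / (m + 1) * X) ≤ δ * c * X := by
    have h1 : (m : ℝ) * (δ * c / (m + 1) * X) = ((m : ℝ) / (m + 1)) * (δ * c * X) := by
      field_simp
    rw [h1]
    have h2 : (m : ℝ) / (m + 1) ≤ 1 := by
      rw [div_le_one (by positivity)]
      linarith
    have h3 : 0 ≤ δ * c * (X : ℝ) := by positivity
    calc _ ≤ 1 * (δ * c * (X : ℝ)) := mul_le_mul_of_nonneg_right h2 h3
      _ = _ := one_mul _
  have hbig : c * X ≤ S := by
    rw [hS]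
    have hR0 : (∅ : Finset OPi) ∈ F := by
      rw [hF]
      exact Finset.mem_powerset.2 (Finset.empty_subset _)
    have hA0 : (∅ : Finset OPi) ∈ (∅ : Finset OPi).powerset := Finset.mem_powerset.2 (Finset.empty_subset _)
    have g1 : ∑ A ∈ (∅ : Finset OPi).powerset, qf X A ∅ ≤ ∑ R ∈ F, ∑ A ∈ R.powerset, qf X A R :=
      Finset.single_le_sum (f := fun R => ∑ A ∈ R.powerset, qf X A R)
        (fun R _ => Finset.sum_nonneg fun A _ => qf_nonneg X A R) hR0
    have g2 : qf X ∅ ∅ ≤ ∑ A ∈ (∅ : Finset OPi).powerset, qf X A ∅ :=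
      Finset.single_le_sum (f := fun A => qf X A ∅) (fun A _ => qf_nonneg X A ∅) hA0
    have g3 : (((arQT ∅).sb X).card : ℝ) ≤ qf X ∅ ∅ := by
      have e0 : X / wt (∅ : Finset OPi) ∅ / 2 ^ 0 = X := by
        unfold wt PP.nS
        simp
      have h3 := Finset.single_le_sum (s := range 4)
        (f := fun t => (((arQT ∅).sb (X / wt (∅ : Finset OPi) ∅ / 2 ^ t)).card : ℝ))
        (fun i _ => Nat.cast_nonneg _) (Finset.mem_range.2 (show 0 < 4 by norm_num))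
      simp only [e0] at h3
      exact h3
    exact ((hZ X (by omega)).trans g3).trans (g2.trans g1)
  have hbig' := mul_le_mul_of_nonneg_left hbig hδ0.le
  have e4 : 4 * q * α * S = (4 * δ * S + 4 * m * S) / 1000 := by
    rw [hδ]
    ring
  have e5 : (m : ℝ) * (4 * S + δ * c / (m + 1) * X) = 4 * m * S + m * (δ * c / (m + 1) * X) := by ring
  have f1 : (m : ℝ) * ((quarA X).ncard : ℝ) ≤ 4 * m * S + δ * c * X := by
    rw [e5] at hall'
    linarith
  have f2 : 4 * q * α * S - δ * c / 1000 * X - δ * c / 1000 * X ≤ N X := by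
    rw [e2] at havg'
    linarith
  rw [e4] at f2
  have f3 : 1000 * ((4 * δ * S + 4 * m * S) / 1000 - δ * c / 1000 * X - δ * c / 1000 * X) ≤ 1000 * N X :=
    mul_le_mul_of_nonneg_left f2 (by norm_num)
  have e6 : 1000 * ((4 * δ * S + 4 * (m : ℝ) * S) / 1000 - δ * c / 1000 * X - δ * c / 1000 * X) =
      4 * (δ * S) + 4 * m * S - 2 * (δ * c * X) := by ring
  have e7 : δ * (c * (X : ℝ)) = δ * c * X := by ring
  have hp : 0 ≤ δ * c * (X : ℝ) := by positivity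
  rw [e6] at f3
  rw [e7] at hbig'
  linarith

/-- [UN-OS6] **The number of the good `D`**, those of good reduction above `2` up to `16 X`, is at least `0.515` times the number of all
`D` up to `X`. -/
theorem density16 : ∃ X0 : ℕ, ∀ X : ℕ, X0 ≤ X →
    515 * ((quarA X).ncard : ℝ) ≤ 1000 * (((quarN X).ncard : ℝ) + ((quarC (16 * X)).ncard : ℝ)) := by
  have h := density_gen (q := 41885 / 100000 * (13 / 10)) (by norm_num) (fun A R X => gNC A R X + gC A R (16 * X))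
    (fun X => ((quarN X).ncard : ℝ) + ((quarC (16 * X)).ncard : ℝ)) (fun A R hA => dens_fin hA)
    (fun X F => by
      simp only [Finset.sum_add_distrib]
      exact add_le_add (le_quarN X F) (le_quarC X F))
    (average_of (α := 947 / 1000) (by norm_num) sum947) 515 (by norm_num)
  obtain ⟨X0, h0⟩ := h
  refine ⟨X0, fun X hX => ?_⟩
  have h1 := h0 X hX
  push_cast at h1
  exact h1

end UN
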