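import Pool.Agent.UN.Disc
import Pool.Agent.PP.Y4

set_option autoImplicit false

open NumberField Ideal IsDedekindDomain
open scoped Classical

/-!
# [UN] the field `ℚ(√-7)`
-/

namespace UN

variable {K : Type} [Field K] [NumberField K]

theorem seven_low (F : PP.Fld K) {δ : 𝓞 K} (h : F.Good δ) :
    DiscLE (F.curve δ) (1 * absNorm (span {δ}) ^ 6) := by
  obtain ⟨c, hc⟩ := PP.y1_coeffs F h
  have hM : F.curve δ = (⟨1, -(1 + 3 * c), 0, -(δ ^ 2), 0⟩ : WeierstrassCurve (𝓞 K)).map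
      (algebraMap (𝓞 K) K) := by
    rw [hc]
    ext
    · exact (map_one _).symm
    · exact (map_neg _ _).symm
    · exact (map_zero _).symm
    · exact (map_neg _ _).symm
    · exact (map_zero _).symm
  refine ⟨_, 1, by rw [one_smul]; exact hM, ?_⟩
  have hΔ : (⟨1, -(1 + 3 * c), 0, -(δ ^ 2), 0⟩ : WeierstrassCurve (𝓞 K)).Δ = δ ^ 6 := by
    apply FaithfulSMul.algebraMap_injective (𝓞 K) K
    rw [← WeierstrassCurve.map_Δ, ← hM, PP.y1_Δ, map_pow]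
  rw [hΔ, ← Ideal.span_singleton_pow, map_pow, one_mul]

theorem seven_up (F : PP.Fld K) (E : WeierstrassCurve K) (X : ℕ)
    (hE : ∃ _ : E.IsElliptic, E.j = -3375) (hX : DiscLE E X) :
    ∃ (δ : 𝓞 K) (C : WeierstrassCurve.VariableChange K),
      E = C • TTS.Ws (PPS.dd (PPS.dat F) δ) ∧ absNorm (span {δ}) ^ 6 ≤ 1 * X := by
  obtain ⟨hell, hj⟩ := hE
  obtain ⟨d, C, C', hd, hC, -⟩ := TTS.exists_Ws E hj
  have hr0 : F.r ≠ 0 := by
    intro h0
    have := F.hr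
    rw [h0] at this
    norm_num at this
  obtain ⟨δ, s, hδ, hs, hds⟩ := PPS.sqf_rep (PPS.dat F) (d * F.r) (mul_ne_zero hd hr0)
  have hx : s / F.r ≠ 0 := div_ne_zero hs hr0
  have hdx : d = (s / F.r) ^ 2 * PPS.dd (PPS.dat F) δ := by
    rw [PPS.dd, PPS.dat_r, div_pow]
    field_simp
    linear_combination hds
  obtain ⟨C₁, hC₁, -⟩ := TTS.Ws_scale (d := PPS.dd (PPS.dat F) δ) hx
  have hE : E = (C * C₁) • TTS.Ws (PPS.dd (PPS.dat F) δ) := by
    rw [hC, mul_smul, ← hC₁, ← hdx]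
  refine ⟨δ, C * C₁, hE, ?_⟩
  have h1 := disc_bound (W := TTS.Ws (PPS.dd (PPS.dat F) δ)) (κ := 1) (δ := δ) (c := 2 * F.r)
    (m := 6) (mul_ne_zero two_ne_zero hr0) one_ne_zero hδ.ne_zero (by
      rw [PP.y3_Δ, RingOfIntegers.coe_eq_algebraMap, RingOfIntegers.coe_eq_algebraMap, map_one,
        mul_one]) (by
      intro v n hn
      by_contra hcon
      have h2 : v.asIdeal ^ n ≤ v.asIdeal ^ 2 := Ideal.pow_le_pow_right (by omega)
      exact PPS.sf_not_sq (PPS.dat F) hδ v (h2 hn)) hE hX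
  have h3 : absNorm (span {(1 : 𝓞 K)}) = 1 := by
    rw [Ideal.span_singleton_one, Ideal.absNorm_top]
  rwa [h3, one_pow] at h1

theorem seven (hK : Module.finrank ℚ K = 2) (hr : ∃ r : K, r ^ 2 = -7)
    {Q : WeierstrassCurve K → Prop} (hQ : ∀ E, SBSD2.TwoPartRankZero E → Q E) :
    (∀ X : ℕ, (fam K (-3375) (fun _ => True) X).Finite) ∧
    ∃ (c : ℝ) (X0 : ℕ), 0 < c ∧ ∀ X : ℕ, X0 ≤ X →
      c * ((fam K (-3375) (fun _ => True) X).ncard : ℝ) ≤ ((fam K (-3375) (fun E =>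
        ∀ C : WeierstrassCurve.VariableChange K, Q (C • E)) X).ncard : ℝ) := by
  obtain ⟨r, hr'⟩ := hr
  let F : PP.Fld K := ⟨r, hr', hK⟩
  refine uni (-3375) 6 1 1 21 3 (by norm_num) (by norm_num) _
    (fun δ => TTS.Ws (PPS.dd (PPS.dat F) δ)) F.curve (fun Y => ?_) (seven_up F)
    {δ : 𝓞 K | F.Good δ ∧ ∀ C : WeierstrassCurve.VariableChange K, Q (C • F.curve δ)}
    (fun δ hδ => ?_) (fun δ hδ δ' hδ' C hC => PP.y1_unique hδ.1 hδ'.1 C hC) ?_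
  · obtain ⟨h1, h2⟩ := PP.y3_count F Y
    exact ⟨h1, by exact_mod_cast h2⟩
  · exact ⟨(PP.y1_cmGood hδ.1).1, seven_low F hδ.1, hδ.2⟩
  · obtain ⟨-, ⟨c0, X0, hc0, h0⟩, h1⟩ := PP.final hK ⟨r, hr'⟩ hQ
    obtain ⟨X1, h2⟩ := h1 (1 / 4) (by norm_num)
    refine ⟨1 / 4 * c0, max X0 X1, by positivity, fun Y hY => ?_⟩
    have g1 := h0 Y (le_trans (le_max_left _ _) hY)
    have g2 := h2 Y (le_trans (le_max_right _ _) hY)
    rw [PP.y1_ncard F Q] at g2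
    have hset : {δ : 𝓞 K | δ ∈ {δ : 𝓞 K | F.Good δ ∧
        ∀ C : WeierstrassCurve.VariableChange K, Q (C • F.curve δ)} ∧ absNorm (span {δ}) ≤ Y} =
        {δ : 𝓞 K | F.Good δ ∧ absNorm (span {δ}) ≤ Y ∧
          ∀ C : WeierstrassCurve.VariableChange K, Q (C • F.curve δ)} := by
      ext δ
      simp only [Set.mem_ofPred_eq]
      tauto
    rw [hset]
    calc 1 / 4 * c0 * (Y : ℝ) = 1 / 4 * (c0 * Y) := by ring
      _ ≤ 1 / 4 * ((PP.classes K (fun _ => True) Y).ncard : ℝ) := by gcongr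
      _ ≤ _ := g2

end UN
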