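import Pool.Agent.UN.Two
import Pool.Agent.Q2Y.Y10

set_option autoImplicit false

open NumberField Ideal IsDedekindDomain
open scoped Classical

/-!
# [UN] the uniform statement for `ℚ(√-2)`, from the theorem for the good `(e, S)`
-/

namespace UN

variable {K : Type} [Field K] [NumberField K]

theorem two_of (F : Q2.Fld K) {P : WeierstrassCurve K → Prop}
    (H : ∀ (e : Q2.Z2) (S : Finset Q2.Z2), Q2.Good e S →
      P (Q2.W ((F.e (e * ∏ p ∈ S, p) : 𝓞 K) : K))) :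
    (∀ X : ℕ, (fam K 8000 (fun _ => True) X).Finite) ∧
    ∃ (c : ℝ) (X0 : ℕ), 0 < c ∧ ∀ X : ℕ, X0 ≤ X →
      c * ((fam K 8000 (fun _ => True) X).ncard : ℝ) ≤ ((fam K 8000 P X).ncard : ℝ) := by
  refine two F ?_
  obtain ⟨c, hc, X0, h0⟩ := Q2.sqA_ge
  obtain ⟨X1, h1⟩ := Q2.density_all
  refine ⟨418 / 1000 * c, max X0 X1, by positivity, fun Y hY => ?_⟩
  have g0 := h0 Y (le_trans (le_max_left _ _) hY)
  have g1 := h1 Y (le_trans (le_max_right _ _) hY)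
  have g2 : (Q2.sqB Y).ncard ≤
      {δ : 𝓞 K | (Squarefree δ ∧ P (Q2.W (δ : K))) ∧ absNorm (span {δ}) ≤ Y}.ncard := by
    have hinj : Set.InjOn F.e (Q2.sqB Y) := F.e.injective.injOn
    rw [← hinj.ncard_image]
    refine Set.ncard_le_ncard ?_ ((F.count Y).1.subset fun δ hδ => hδ.2)
    rintro _ ⟨D, ⟨hD1, hD2, e, S, hg, hD3⟩, rfl⟩
    refine ⟨⟨(F.sqf_e D).2 hD1, ?_⟩, ?_⟩
    · rw [hD3]
      exact H e S hg
    · have h3 := F.norm_e D
      have h4 : ((absNorm (span {F.e D}) : ℕ) : ℤ) ≤ Y := by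
        rw [h3]
        exact hD2
      exact_mod_cast h4
  have g3 : (418 : ℝ) * ((Q2.sqA Y).ncard : ℝ) ≤ 1000 * ((Q2.sqB Y).ncard : ℝ) := by
    exact_mod_cast g1
  have g4 : ((Q2.sqB Y).ncard : ℝ) ≤
      ({δ : 𝓞 K | (Squarefree δ ∧ P (Q2.W (δ : K))) ∧ absNorm (span {δ}) ≤ Y}.ncard : ℝ) := by
    exact_mod_cast g2
  linarith

end UN
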