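import Pool.Agent.UN.TwoC
import Pool.Agent.Q2L.FinW

set_option autoImplicit false

open NumberField Ideal IsDedekindDomain
open scoped Classical

/-!
# [UN] a positive proportion of the curves with `j = 8000` over `ℚ(√-2)` have rank zero and satisfy the `2`-part of the conjecture of
Birch and Swinnerton-Dyer
-/

namespace UN

variable {K : Type} [Field K] [NumberField K]

/-- the family of all elliptic curves over `K = ℚ(√-2)` with complex multiplication by the ring of integers (`j = 8000`) -/
theorem two_full (F : Q2.Fld K) :
    (∀ X : ℕ, (fam K 8000 (fun _ => True) X).Finite) ∧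
    ∃ (c : ℝ) (X0 : ℕ), 0 < c ∧ ∀ X : ℕ, X0 ≤ X →
      c * ((fam K 8000 (fun _ => True) X).ncard : ℝ) ≤ ((fam K 8000 SBSD2.TwoPartRankZero X).ncard : ℝ) :=
  two_of F fun _ _ h => Q2.final_good F h

end UN
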